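import Mathlib

/-!
# A second counting lemma

Edges `j` join the units `p j` and `j + 1`; points `x` lie in at most one unit. An edge is kept
if it is isolated, or if it touches exactly one other object, this object is an edge, and that
edge touches nothing else.
-/

set_option autoImplicit false

namespace Pool.Agent.W5h16.PG.C2

open Finset Classical

variable {ι : Type}

/-- The number of edges of `E` and points of `X` that touch the unit `U`. -/
noncomputable def deg (p : ℕ → ℕ) (R : ι → ℕ → Prop) (E : Finset ℕ) (X : Finset ι) (U : ℕ) : ℕ :=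
  (E.filter (fun j => U = p j ∨ U = j + 1)).card + (X.filter (fun x => R x U)).card

/-- The edge `j` is kept. -/
def Keep (p : ℕ → ℕ) (R : ι → ℕ → Prop) (E : Finset ℕ) (X : Finset ι) (j : ℕ) : Prop :=
  deg p R E X (p j) + deg p R E X (j + 1) = 2 ∨
    (deg p R E X (p j) + deg p R E X (j + 1) = 3 ∧ ∃ j' ∈ E, j' ≠ j ∧
      (∃ U, (U = p j ∨ U = j + 1) ∧ (U = p j' ∨ U = j' + 1)) ∧
      deg p R E X (p j') + deg p R E X (j' + 1) = 3)

/-- The edges that are not kept. -/
noncomputable def busy (p : ℕ → ℕ) (R : ι → ℕ → Prop) (E : Finset ℕ) (X : Finset ι) : Finset ℕ :=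
  E.filter (fun j => ¬ Keep p R E X j)

/-- The units touched by edges that are not kept. -/
noncomputable def units (p : ℕ → ℕ) (R : ι → ℕ → Prop) (E : Finset ℕ) (X : Finset ι) :
    Finset ℕ :=
  (busy p R E X).image p ∪ (busy p R E X).image (fun j => j + 1)

variable {p : ℕ → ℕ} {R : ι → ℕ → Prop} {E : Finset ℕ} {X : Finset ι}

theorem mem_units {U : ℕ} :
    U ∈ units p R E X ↔ ∃ j ∈ busy p R E X, U = p j ∨ U = j + 1 := by
  simp only [units, mem_union, mem_image]
  constructor
  · rintro (⟨j, hj, rfl⟩ | ⟨j, hj, rfl⟩)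
    · exact ⟨j, hj, Or.inl rfl⟩
    · exact ⟨j, hj, Or.inr rfl⟩
  · rintro ⟨j, hj, (rfl | rfl)⟩
    · exact Or.inl ⟨j, hj, rfl⟩
    · exact Or.inr ⟨j, hj, rfl⟩

theorem one_le_deg {U j : ℕ} (hj : j ∈ E) (h : U = p j ∨ U = j + 1) : 1 ≤ deg p R E X U := by
  have h1 : 1 ≤ (E.filter (fun j => U = p j ∨ U = j + 1)).card :=
    card_pos.2 ⟨j, mem_filter.2 ⟨hj, h⟩⟩
  rw [deg]
  omega

/-- Two different edges touching `U`. -/
theorem two_le_deg_of_edges {U j j' : ℕ} (hj : j ∈ E) (hj' : j' ∈ E) (hne : j ≠ j')
    (h : U = p j ∨ U = j + 1) (h' : U = p j' ∨ U = j' + 1) : 2 ≤ deg p R E X U := by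
  have h2 : 2 ≤ (E.filter (fun j => U = p j ∨ U = j + 1)).card := by
    rw [← card_pair hne]
    refine card_le_card ?_
    intro a ha
    rw [mem_insert, mem_singleton] at ha
    rw [mem_filter]
    rcases ha with rfl | rfl
    · exact ⟨hj, h⟩
    · exact ⟨hj', h'⟩
  rw [deg]
  omega

/-- Three different edges touching `U`. -/
theorem three_le_deg_of_edges {U j j' k : ℕ} (hj : j ∈ E) (hj' : j' ∈ E) (hk : k ∈ E)
    (hne : j ≠ j') (hne2 : j ≠ k) (hne3 : j' ≠ k)
    (h : U = p j ∨ U = j + 1) (h' : U = p j' ∨ U = j' + 1) (hk' : U = p k ∨ U = k + 1) :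
    3 ≤ deg p R E X U := by
  have h2 : 3 ≤ (E.filter (fun j => U = p j ∨ U = j + 1)).card := by
    have h3 : ({j, j', k} : Finset ℕ).card = 3 := by
      rw [card_eq_three]
      exact ⟨j, j', k, hne, hne2, hne3, rfl⟩
    rw [← h3]
    refine card_le_card ?_
    intro a ha
    rw [mem_insert, mem_insert, mem_singleton] at ha
    rw [mem_filter]
    rcases ha with rfl | rfl | rfl
    · exact ⟨hj, h⟩
    · exact ⟨hj', h'⟩
    · exact ⟨hk, hk'⟩
  rw [deg]
  omega

/-- An edge and a point touching `U`. -/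
theorem two_le_deg_of_point {U j : ℕ} {x : ι} (hj : j ∈ E) (hx : x ∈ X)
    (h : U = p j ∨ U = j + 1) (h' : R x U) : 2 ≤ deg p R E X U := by
  have h1 : 1 ≤ (E.filter (fun j => U = p j ∨ U = j + 1)).card :=
    card_pos.2 ⟨j, mem_filter.2 ⟨hj, h⟩⟩
  have h2 : 1 ≤ (X.filter (fun x => R x U)).card :=
    card_pos.2 ⟨x, mem_filter.2 ⟨hx, h'⟩⟩
  rw [deg]
  omega

/-- Two edges and a point touching `U`. -/
theorem three_le_deg_of_point {U j j' : ℕ} {x : ι} (hj : j ∈ E) (hj' : j' ∈ E) (hne : j ≠ j')
    (hx : x ∈ X) (h : U = p j ∨ U = j + 1) (h' : U = p j' ∨ U = j' + 1) (hx' : R x U) :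
    3 ≤ deg p R E X U := by
  have h1 : 2 ≤ (E.filter (fun j => U = p j ∨ U = j + 1)).card := by
    rw [← card_pair hne]
    refine card_le_card ?_
    intro a ha
    rw [mem_insert, mem_singleton] at ha
    rw [mem_filter]
    rcases ha with rfl | rfl
    · exact ⟨hj, h⟩
    · exact ⟨hj', h'⟩
  have h2 : 1 ≤ (X.filter (fun x => R x U)).card :=
    card_pos.2 ⟨x, mem_filter.2 ⟨hx, hx'⟩⟩
  rw [deg]
  omega

/-- The degrees of the two units of a kept edge which touches a unit of degree at least two. -/
theorem keep_deg {U j : ℕ} (hj : j ∈ E) (hk : Keep p R E X j) (h : U = p j ∨ U = j + 1)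
    (h2 : 2 ≤ deg p R E X U) :
    deg p R E X U = 2 ∧ (∀ U', (U' = p j ∨ U' = j + 1) → U' ≠ U → deg p R E X U' = 1) ∧
      ∃ j' ∈ E, j' ≠ j ∧ (U = p j' ∨ U = j' + 1) ∧
        deg p R E X (p j') + deg p R E X (j' + 1) = 3 := by
  have ha : 1 ≤ deg p R E X (p j) := one_le_deg hj (Or.inl rfl)
  have hb : 1 ≤ deg p R E X (j + 1) := one_le_deg hj (Or.inr rfl)
  rcases hk with hk | ⟨hk, j', hj', hne, ⟨U1, hU1, hU1'⟩, hk'⟩
  · rcases h with rfl | rfl <;> omega
  · have hd : deg p R E X U = 2 ∧
        ∀ U', (U' = p j ∨ U' = j + 1) → U' ≠ U → deg p R E X U' = 1 := by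
      rcases h with rfl | rfl
      · refine ⟨by omega, fun U' hU' hne' => ?_⟩
        rcases hU' with rfl | rfl
        · exact absurd rfl hne'
        · omega
      · refine ⟨by omega, fun U' hU' hne' => ?_⟩
        rcases hU' with rfl | rfl
        · omega
        · exact absurd rfl hne'
    refine ⟨hd.1, hd.2, j', hj', hne, ?_, hk'⟩
    have h3 : 2 ≤ deg p R E X U1 := two_le_deg_of_edges hj hj' hne.symm hU1 hU1'
    by_cases hUU : U1 = U
    · rw [← hUU]; exact hU1'
    · have := hd.2 U1 hU1 hUU
      omega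

theorem busy_of_touch {U j : ℕ} (hU : U ∈ units p R E X) (hj : j ∈ E)
    (h : U = p j ∨ U = j + 1) : j ∈ busy p R E X := by
  obtain ⟨j0, hj0, h0⟩ := mem_units.1 hU
  by_cases hne : j = j0
  · rwa [hne]
  · rw [busy, mem_filter] at hj0 ⊢
    refine ⟨hj, fun hk => hj0.2 ?_⟩
    have h2 : 2 ≤ deg p R E X U := two_le_deg_of_edges hj hj0.1 hne h h0
    obtain ⟨hd, hd', j', hj', hne', hU', hk'⟩ := keep_deg hj hk h h2
    have hjj : j' = j0 := by
      by_contra hcon
      have := three_le_deg_of_edges (R := R) (X := X) hj hj' hj0.1 (Ne.symm hne') hne hcon h hU' h0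
      omega
    rw [hjj] at hk'
    have hsum : deg p R E X (p j) + deg p R E X (j + 1) = 3 := by
      rcases hk with hk | hk
      · exfalso
        have ha : 1 ≤ deg p R E X (p j) := one_le_deg hj (Or.inl rfl)
        have hb : 1 ≤ deg p R E X (j + 1) := one_le_deg hj (Or.inr rfl)
        rcases h with rfl | rfl <;> omega
      · exact hk.1
    exact Or.inr ⟨hk', j, hj, hne, ⟨U, h0, h⟩, hsum⟩

/-- The charge which the edge `j` gives to its unit `U`; `V` is its other unit. -/
noncomputable def ch (p : ℕ → ℕ) (R : ι → ℕ → Prop) (E : Finset ℕ) (X : Finset ι) (U V : ℕ) : ℕ :=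
  if deg p R E X U = 1 then 3 else if deg p R E X V = 1 then 1 else 2

/-- The other unit of the edge `j`. -/
def oth (p : ℕ → ℕ) (j U : ℕ) : ℕ := if U = p j then j + 1 else p j

/-- The counting lemma. -/
theorem count (hp : ∀ j, p j ≤ j) (hR : ∀ x U U', R x U → R x U' → U = U') :
    3 * (units p R E X).card ≤ 4 * (busy p R E X).card +
      2 * (X.filter (fun x => ∃ U ∈ units p R E X, R x U)).card := by
  set B := busy p R E X with hB
  set 𝒰 := units p R E X with hU
  set X' := X.filter (fun x => ∃ U ∈ 𝒰, R x U) with hX'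
  -- points
  have h2 : ∑ U ∈ 𝒰, (X.filter (fun x => R x U)).card ≤ X'.card := by
    have h : ∀ U ∈ 𝒰, (X.filter (fun x => R x U)).card =
        (Finset.bipartiteAbove (fun U x => R x U) X' U).card := by
      intro U hU'
      congr 1
      ext x
      rw [Finset.mem_bipartiteAbove, mem_filter, hX', mem_filter]
      constructor
      · rintro ⟨h1, h2⟩
        exact ⟨⟨h1, U, hU', h2⟩, h2⟩
      · rintro ⟨h1, h2⟩
        exact ⟨h1.1, h2⟩
    rw [sum_congr rfl h, Finset.sum_card_bipartiteAbove_eq_sum_card_bipartiteBelow]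
    calc ∑ x ∈ X', (Finset.bipartiteBelow (fun U x => R x U) 𝒰 x).card
        ≤ ∑ x ∈ X', 1 := by
          refine sum_le_sum fun x _ => ?_
          rw [card_le_one]
          intro a ha b hb
          rw [Finset.mem_bipartiteBelow] at ha hb
          exact hR x a b ha.2 hb.2
      _ = X'.card := by simp
  -- edges
  have h1 : ∑ U ∈ 𝒰, ∑ j ∈ E.filter (fun j => U = p j ∨ U = j + 1),
      ch p R E X U (oth p j U) ≤ 4 * B.card := by
    have h : ∀ U ∈ 𝒰, ∑ j ∈ E.filter (fun j => U = p j ∨ U = j + 1),
        ch p R E X U (oth p j U) =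
        ∑ j ∈ B, if U = p j ∨ U = j + 1 then ch p R E X U (oth p j U) else 0 := by
      intro U hU'
      rw [← sum_filter]
      refine sum_congr ?_ fun _ _ => rfl
      ext j
      rw [mem_filter, mem_filter]
      constructor
      · rintro ⟨h1, h2⟩
        exact ⟨busy_of_touch hU' h1 h2, h2⟩
      · rintro ⟨h1, h2⟩
        exact ⟨(mem_filter.1 h1).1, h2⟩
    rw [sum_congr rfl h, sum_comm]
    calc ∑ j ∈ B, ∑ U ∈ 𝒰, (if U = p j ∨ U = j + 1 then ch p R E X U (oth p j U) else 0)
        ≤ ∑ j ∈ B, 4 := by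
          refine sum_le_sum fun j hj => ?_
          rw [← sum_filter]
          have hsub : 𝒰.filter (fun U => U = p j ∨ U = j + 1) ⊆ {p j, j + 1} := by
            intro U hU'
            rw [mem_filter] at hU'
            rw [mem_insert, mem_singleton]
            exact hU'.2
          have hne : p j ≠ j + 1 := by have := hp j; omega
          refine (sum_le_sum_of_subset hsub).trans ?_
          rw [sum_pair hne]
          have ho1 : oth p j (p j) = j + 1 := by simp [oth]
          have ho2 : oth p j (j + 1) = p j := by simp [oth, hne.symm]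
          rw [ho1, ho2]
          rw [hB, busy, mem_filter] at hj
          have hkk : ¬ (deg p R E X (p j) = 1 ∧ deg p R E X (j + 1) = 1) := by
            rintro ⟨h5, h6⟩
            exact hj.2 (Or.inl (by omega))
          rw [ch, ch]
          split_ifs with c1 c2 <;> first | omega | exact absurd ⟨c1, c2⟩ hkk
      _ = 4 * B.card := by rw [sum_const, smul_eq_mul, mul_comm]
  -- each unit gets enough
  have h4 : ∑ U ∈ 𝒰, 3 ≤ ∑ U ∈ 𝒰, (∑ j ∈ E.filter (fun j => U = p j ∨ U = j + 1),
      ch p R E X U (oth p j U) + 2 * (X.filter (fun x => R x U)).card) := by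
    refine sum_le_sum fun U hU' => ?_
    obtain ⟨j, hjB, hUj⟩ := mem_units.1 hU'
    have hjE : j ∈ E := (mem_filter.1 hjB).1
    have hjF : j ∈ E.filter (fun j => U = p j ∨ U = j + 1) := mem_filter.2 ⟨hjE, hUj⟩
    have hch1 : ∀ i, 1 ≤ ch p R E X U (oth p i U) := by
      intro i
      rw [ch]
      split_ifs <;> omega
    by_cases hd1 : deg p R E X U = 1
    · have h5 : ch p R E X U (oth p j U) ≤ ∑ i ∈ E.filter (fun j => U = p j ∨ U = j + 1),
          ch p R E X U (oth p i U) := single_le_sum (f := fun i => ch p R E X U (oth p i U))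
            (fun _ _ => Nat.zero_le _) hjF
      have h6 : ch p R E X U (oth p j U) = 3 := by rw [ch, if_pos hd1]
      omega
    · have hcard : (E.filter (fun j => U = p j ∨ U = j + 1)).card ≤
          ∑ i ∈ E.filter (fun j => U = p j ∨ U = j + 1), ch p R E X U (oth p i U) := by
        rw [card_eq_sum_ones]
        exact sum_le_sum fun i _ => hch1 i
      have hpos : 1 ≤ (E.filter (fun j => U = p j ∨ U = j + 1)).card := card_pos.2 ⟨j, hjF⟩
      have hdeg : deg p R E X U = (E.filter (fun j => U = p j ∨ U = j + 1)).card +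
          (X.filter (fun x => R x U)).card := rfl
      by_cases hx : 1 ≤ (X.filter (fun x => R x U)).card
      · omega
      · by_cases h3 : 3 ≤ (E.filter (fun j => U = p j ∨ U = j + 1)).card
        · omega
        · -- exactly two edges
          have hE2 : (E.filter (fun j => U = p j ∨ U = j + 1)).card = 2 := by omega
          obtain ⟨i, i', hii, hF⟩ := card_eq_two.1 hE2
          have hi : i ∈ E.filter (fun j => U = p j ∨ U = j + 1) := by rw [hF]; simp
          have hi' : i' ∈ E.filter (fun j => U = p j ∨ U = j + 1) := by rw [hF]; simp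
          rw [hF, sum_pair hii]
          rw [mem_filter] at hi hi'
          have hd2 : deg p R E X U = 2 := by omega
          have hoth : ∀ a, (U = p a ∨ U = a + 1) →
              deg p R E X (p a) + deg p R E X (a + 1) = 2 + deg p R E X (oth p a U) := by
            intro a ha
            rcases ha with h | h
            · rw [oth, if_pos h, ← h, hd2]
            · have : U ≠ p a := by have := hp a; omega
              rw [oth, if_neg this, ← h, hd2]
              omega
          have hB1 : i ∈ busy p R E X := busy_of_touch hU' hi.1 hi.2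
          by_cases ho : deg p R E X (oth p i U) = 1 ∧ deg p R E X (oth p i' U) = 1
          · exfalso
            rw [busy, mem_filter] at hB1
            apply hB1.2
            have e1 := hoth i hi.2
            have e2 := hoth i' hi'.2
            exact Or.inr ⟨by omega, i', hi'.1, hii.symm, ⟨U, hi.2, hi'.2⟩, by omega⟩
          · have : ch p R E X U (oth p i U) + ch p R E X U (oth p i' U) ≥ 3 := by
              rw [ch, ch, if_neg hd1]
              split_ifs with c1 c2 <;> first | omega | exact absurd ⟨c1, c2⟩ ho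
            omega
  rw [sum_add_distrib, ← mul_sum, sum_const, smul_eq_mul] at h4
  omega

end Pool.Agent.W5h16.PG.C2
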