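import Mathlib

/-!
# A counting lemma

Edges `j` join the units `p j` and `j + 1`; points `x` lie in at most one unit. An edge is
isolated if no other edge and no point touches its two units.
-/

set_option autoImplicit false

namespace Pool.Agent.W5h16.PG

open Finset Classical

variable {ι : Type}

/-- The number of edges of `E` and points of `X` that touch the unit `U`. -/
noncomputable def deg (p : ℕ → ℕ) (R : ι → ℕ → Prop) (E : Finset ℕ) (X : Finset ι) (U : ℕ) : ℕ :=
  (E.filter (fun j => U = p j ∨ U = j + 1)).card + (X.filter (fun x => R x U)).card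

/-- The edges that are not isolated. -/
noncomputable def busy (p : ℕ → ℕ) (R : ι → ℕ → Prop) (E : Finset ℕ) (X : Finset ι) : Finset ℕ :=
  E.filter (fun j => 2 ≤ deg p R E X (p j) ∨ 2 ≤ deg p R E X (j + 1))

/-- The units touched by edges that are not isolated. -/
noncomputable def units (p : ℕ → ℕ) (R : ι → ℕ → Prop) (E : Finset ℕ) (X : Finset ι) :
    Finset ℕ :=
  (busy p R E X).image p ∪ (busy p R E X).image (fun j => j + 1)

variable {p : ℕ → ℕ} {R : ι → ℕ → Prop} {E : Finset ℕ} {X : Finset ι}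

theorem mem_units {U : ℕ} :
    U ∈ units p R E X ↔ ∃ j ∈ busy p R E X, U = p j ∨ U = j + 1 := by
  simp only [units, mem_union, mem_image]
  constructor
  · rintro (⟨j, hj, rfl⟩ | ⟨j, hj, rfl⟩)
    · exact ⟨j, hj, Or.inl rfl⟩
    · exact ⟨j, hj, Or.inr rfl⟩
  · rintro ⟨j, hj, (rfl | rfl)⟩
    · exact Or.inl ⟨j, hj, rfl⟩
    · exact Or.inr ⟨j, hj, rfl⟩

/-- Two different edges touching `U`. -/
theorem two_le_deg_of_edges {U j j' : ℕ} (hj : j ∈ E) (hj' : j' ∈ E) (hne : j ≠ j')
    (h : U = p j ∨ U = j + 1) (h' : U = p j' ∨ U = j' + 1) : 2 ≤ deg p R E X U := by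
  have h2 : 2 ≤ (E.filter (fun j => U = p j ∨ U = j + 1)).card := by
    rw [← card_pair hne]
    refine card_le_card ?_
    intro a ha
    rw [mem_insert, mem_singleton] at ha
    rw [mem_filter]
    rcases ha with rfl | rfl
    · exact ⟨hj, h⟩
    · exact ⟨hj', h'⟩
  rw [deg]
  omega

/-- An edge and a point touching `U`. -/
theorem two_le_deg_of_point {U j : ℕ} {x : ι} (hj : j ∈ E) (hx : x ∈ X)
    (h : U = p j ∨ U = j + 1) (h' : R x U) : 2 ≤ deg p R E X U := by
  have h1 : 1 ≤ (E.filter (fun j => U = p j ∨ U = j + 1)).card :=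
    card_pos.2 ⟨j, mem_filter.2 ⟨hj, h⟩⟩
  have h2 : 1 ≤ (X.filter (fun x => R x U)).card :=
    card_pos.2 ⟨x, mem_filter.2 ⟨hx, h'⟩⟩
  rw [deg]
  omega

theorem mem_busy_of_two_le {U j : ℕ} (hj : j ∈ E) (h : U = p j ∨ U = j + 1)
    (h2 : 2 ≤ deg p R E X U) : j ∈ busy p R E X := by
  rw [busy, mem_filter]
  refine ⟨hj, ?_⟩
  rcases h with rfl | rfl
  · exact Or.inl h2
  · exact Or.inr h2

theorem busy_of_touch {U j : ℕ} (hU : U ∈ units p R E X) (hj : j ∈ E)
    (h : U = p j ∨ U = j + 1) : j ∈ busy p R E X := by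
  obtain ⟨j', hj', h'⟩ := mem_units.1 hU
  by_cases hne : j = j'
  · rwa [hne]
  · exact mem_busy_of_two_le hj h
      (two_le_deg_of_edges hj (mem_filter.1 hj').1 hne h h')

/-- The counting lemma. -/
theorem count (hp : ∀ j, p j ≤ j) (hR : ∀ x U U', R x U → R x U' → U = U') :
    2 * (units p R E X).card ≤ 3 * (busy p R E X).card +
      (X.filter (fun x => ∃ U ∈ units p R E X, R x U)).card := by
  set B := busy p R E X with hB
  set 𝒰 := units p R E X with hU
  set X' := X.filter (fun x => ∃ U ∈ 𝒰, R x U) with hX'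
  set A := 𝒰.filter (fun U => deg p R E X U = 1) with hA
  -- edges
  have h1 : ∑ U ∈ 𝒰, (E.filter (fun j => U = p j ∨ U = j + 1)).card ≤ 2 * B.card := by
    have h : ∀ U ∈ 𝒰, (E.filter (fun j => U = p j ∨ U = j + 1)).card =
        (Finset.bipartiteAbove (fun U j => U = p j ∨ U = j + 1) B U).card := by
      intro U hU'
      congr 1
      ext j
      rw [Finset.mem_bipartiteAbove, mem_filter]
      constructor
      · rintro ⟨h1, h2⟩
        exact ⟨busy_of_touch hU' h1 h2, h2⟩
      · rintro ⟨h1, h2⟩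
        exact ⟨(mem_filter.1 h1).1, h2⟩
    rw [sum_congr rfl h, Finset.sum_card_bipartiteAbove_eq_sum_card_bipartiteBelow]
    calc ∑ j ∈ B, (Finset.bipartiteBelow (fun U j => U = p j ∨ U = j + 1) 𝒰 j).card
        ≤ ∑ j ∈ B, 2 := by
          refine sum_le_sum fun j _ => ?_
          refine (card_le_card (t := {p j, j + 1}) ?_).trans card_le_two
          intro U hU'
          rw [Finset.mem_bipartiteBelow] at hU'
          rw [mem_insert, mem_singleton]
          exact hU'.2
      _ = 2 * B.card := by rw [sum_const, smul_eq_mul, mul_comm]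
  -- points
  have h2 : ∑ U ∈ 𝒰, (X.filter (fun x => R x U)).card ≤ X'.card := by
    have h : ∀ U ∈ 𝒰, (X.filter (fun x => R x U)).card =
        (Finset.bipartiteAbove (fun U x => R x U) X' U).card := by
      intro U hU'
      congr 1
      ext x
      rw [Finset.mem_bipartiteAbove, mem_filter, hX', mem_filter]
      constructor
      · rintro ⟨h1, h2⟩
        exact ⟨⟨h1, U, hU', h2⟩, h2⟩
      · rintro ⟨h1, h2⟩
        exact ⟨h1.1, h2⟩
    rw [sum_congr rfl h, Finset.sum_card_bipartiteAbove_eq_sum_card_bipartiteBelow]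
    calc ∑ x ∈ X', (Finset.bipartiteBelow (fun U x => R x U) 𝒰 x).card
        ≤ ∑ x ∈ X', 1 := by
          refine sum_le_sum fun x _ => ?_
          rw [card_le_one]
          intro a ha b hb
          rw [Finset.mem_bipartiteBelow] at ha hb
          exact hR x a b ha.2 hb.2
      _ = X'.card := by simp
  -- units of degree one
  have h3 : A.card ≤ B.card := by
    calc A.card = ∑ U ∈ A, 1 := by simp
      _ ≤ ∑ U ∈ A, (Finset.bipartiteAbove (fun U j => U = p j ∨ U = j + 1) B U).card := by
          refine sum_le_sum fun U hUA => ?_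
          obtain ⟨j, hj, h⟩ := mem_units.1 (mem_filter.1 hUA).1
          exact card_pos.2 ⟨j, by rw [Finset.mem_bipartiteAbove]; exact ⟨hj, h⟩⟩
      _ = ∑ j ∈ B, (Finset.bipartiteBelow (fun U j => U = p j ∨ U = j + 1) A j).card :=
          Finset.sum_card_bipartiteAbove_eq_sum_card_bipartiteBelow _
      _ ≤ ∑ j ∈ B, 1 := by
          refine sum_le_sum fun j hj => ?_
          rw [card_le_one]
          intro a ha b hb
          rw [Finset.mem_bipartiteBelow, hA, mem_filter] at ha hb
          by_contra hab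
          have hj2 := (mem_filter.1 hj).2
          obtain ⟨⟨-, ha1⟩, ha2⟩ := ha
          obtain ⟨⟨-, hb1⟩, hb2⟩ := hb
          rcases ha2 with rfl | rfl <;> rcases hb2 with rfl | rfl
          · exact hab rfl
          · omega
          · omega
          · exact hab rfl
      _ = B.card := by simp
  -- conclusion
  have h4 : ∑ U ∈ 𝒰, 2 ≤ ∑ U ∈ 𝒰, ((E.filter (fun j => U = p j ∨ U = j + 1)).card +
      (X.filter (fun x => R x U)).card + if deg p R E X U = 1 then 1 else 0) := by
    refine sum_le_sum fun U hU' => ?_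
    have h5 : 1 ≤ (E.filter (fun j => U = p j ∨ U = j + 1)).card := by
      obtain ⟨j, hj, h⟩ := mem_units.1 hU'
      exact card_pos.2 ⟨j, mem_filter.2 ⟨(mem_filter.1 hj).1, h⟩⟩
    split_ifs with hd
    · omega
    · rw [deg] at hd
      omega
  have h6 : A.card = ∑ U ∈ 𝒰, (if deg p R E X U = 1 then 1 else 0) := by
    rw [hA, card_filter]
  rw [sum_add_distrib, sum_add_distrib, ← h6, sum_const, smul_eq_mul] at h4
  omega

end Pool.Agent.W5h16.PG
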