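import Mathlib

/-!
# The level dynamics

Units `0, 1, 2, …` carry levels. At time `k` the units `0, …, k` are present; a unit of largest
level `c` is chosen, its level becomes `ρ c`, and the new unit `k + 1` gets the level `β c`.
-/

set_option autoImplicit false

namespace Pool.Agent.W5h16.PG

open Finset

/-- An index of a largest value among `y 0, …, y k`. -/
noncomputable def am (y : ℕ → ℝ) (k : ℕ) : ℕ :=
  Classical.choose (Finset.exists_max_image (Finset.range (k + 1)) y ⟨0, by simp⟩)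

theorem am_le (y : ℕ → ℝ) (k : ℕ) : am y k ≤ k := by
  have h := (Classical.choose_spec
    (Finset.exists_max_image (Finset.range (k + 1)) y ⟨0, by simp⟩)).1
  rw [Finset.mem_range] at h
  exact Nat.lt_succ_iff.1 h

theorem le_am (y : ℕ → ℝ) (k : ℕ) {U : ℕ} (h : U ≤ k) : y U ≤ y (am y k) :=
  (Classical.choose_spec
    (Finset.exists_max_image (Finset.range (k + 1)) y ⟨0, by simp⟩)).2 U
    (by rw [Finset.mem_range]; omega)

/-- The levels at time `k`. -/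
noncomputable def lev (ρ β y0 : ℝ) : ℕ → ℕ → ℝ
  | 0 => fun U => if U = 0 then y0 else 0
  | k + 1 => fun U =>
      if U = k + 1 then β * lev ρ β y0 k (am (lev ρ β y0 k) k)
      else if U = am (lev ρ β y0 k) k then ρ * lev ρ β y0 k U else lev ρ β y0 k U

/-- The unit chosen at time `k`. -/
noncomputable def pr (ρ β y0 : ℝ) (k : ℕ) : ℕ := am (lev ρ β y0 k) k

/-- The largest level at time `k`. -/
noncomputable def top (ρ β y0 : ℝ) (k : ℕ) : ℝ := lev ρ β y0 k (pr ρ β y0 k)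

variable {ρ β y0 : ℝ}

theorem pr_le (k : ℕ) : pr ρ β y0 k ≤ k := am_le _ _

theorem lev_new (k : ℕ) : lev ρ β y0 (k + 1) (k + 1) = β * top ρ β y0 k := by
  simp [lev, top, pr]

theorem lev_pr (k : ℕ) : lev ρ β y0 (k + 1) (pr ρ β y0 k) = ρ * top ρ β y0 k := by
  have h : pr ρ β y0 k ≠ k + 1 := by
    have := pr_le (ρ := ρ) (β := β) (y0 := y0) k
    omega
  have h1 : lev ρ β y0 (k + 1) (pr ρ β y0 k) = if pr ρ β y0 k = k + 1 then
      β * lev ρ β y0 k (am (lev ρ β y0 k) k)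
      else if pr ρ β y0 k = am (lev ρ β y0 k) k then ρ * lev ρ β y0 k (pr ρ β y0 k)
      else lev ρ β y0 k (pr ρ β y0 k) := rfl
  rw [h1, if_neg h]
  exact if_pos rfl

theorem lev_other {k U : ℕ} (h1 : U ≠ k + 1) (h2 : U ≠ pr ρ β y0 k) :
    lev ρ β y0 (k + 1) U = lev ρ β y0 k U := by
  have h3 : lev ρ β y0 (k + 1) U = if U = k + 1 then
      β * lev ρ β y0 k (am (lev ρ β y0 k) k)
      else if U = am (lev ρ β y0 k) k then ρ * lev ρ β y0 k U
      else lev ρ β y0 k U := rfl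
  rw [h3, if_neg h1]
  exact if_neg h2

theorem lev_zero_of_lt (k : ℕ) : ∀ U, k < U → lev ρ β y0 k U = 0 := by
  induction k with
  | zero =>
    intro U hU
    simp only [lev]
    rw [if_neg (by omega)]
  | succ k ih =>
    intro U hU
    have := pr_le (ρ := ρ) (β := β) (y0 := y0) k
    rw [lev_other (by omega) (by omega), ih U (by omega)]

theorem lev_pos (hρ : 0 < ρ) (hβ : 0 < β) (hy : 0 < y0) (k : ℕ) :
    ∀ U ≤ k, 0 < lev ρ β y0 k U := by
  induction k with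
  | zero =>
    intro U hU
    have : U = 0 := by omega
    simp [lev, this, hy]
  | succ k ih =>
    intro U hU
    have htop : 0 < top ρ β y0 k := ih _ (pr_le k)
    by_cases h1 : U = k + 1
    · rw [h1, lev_new]; positivity
    · by_cases h2 : U = pr ρ β y0 k
      · rw [h2, lev_pr]; positivity
      · rw [lev_other h1 h2]; exact ih U (by omega)

theorem top_pos (hρ : 0 < ρ) (hβ : 0 < β) (hy : 0 < y0) (k : ℕ) : 0 < top ρ β y0 k :=
  lev_pos hρ hβ hy k _ (pr_le k)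

theorem lev_nonneg (hρ : 0 < ρ) (hβ : 0 < β) (hy : 0 < y0) (k U : ℕ) :
    0 ≤ lev ρ β y0 k U := by
  by_cases h : U ≤ k
  · exact (lev_pos hρ hβ hy k U h).le
  · rw [lev_zero_of_lt k U (by omega)]

theorem lev_le_top (hρ : 0 < ρ) (hβ : 0 < β) (hy : 0 < y0) (k U : ℕ) :
    lev ρ β y0 k U ≤ top ρ β y0 k := by
  by_cases h : U ≤ k
  · exact le_am _ _ h
  · rw [lev_zero_of_lt k U (by omega)]
    exact (top_pos hρ hβ hy k).le

theorem top_anti (hρ : 0 < ρ) (hρ1 : ρ ≤ 1) (hβ : 0 < β) (hβ1 : β ≤ 1) (hy : 0 < y0) (k : ℕ) :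
    top ρ β y0 (k + 1) ≤ top ρ β y0 k := by
  have ht := top_pos hρ hβ hy k
  have key : ∀ U, lev ρ β y0 (k + 1) U ≤ top ρ β y0 k := by
    intro U
    by_cases h1 : U = k + 1
    · rw [h1, lev_new]; nlinarith
    · by_cases h2 : U = pr ρ β y0 k
      · rw [h2, lev_pr]; nlinarith
      · rw [lev_other h1 h2]; exact lev_le_top hρ hβ hy k U
  exact key _

/-- A unit that has been chosen keeps a level of at least `ρ` times the largest one. -/
theorem parent_ge (hρ : 0 < ρ) (hρ1 : ρ ≤ 1) (hβ : 0 < β) (hβ1 : β ≤ 1) (hy : 0 < y0) (k : ℕ) :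
    ∀ j < k, ρ * top ρ β y0 k ≤ lev ρ β y0 k (pr ρ β y0 j) := by
  induction k with
  | zero => intro j hj; omega
  | succ k ih =>
    intro j hj
    have hant := top_anti hρ hρ1 hβ hβ1 hy k
    have hm : ρ * top ρ β y0 (k + 1) ≤ ρ * top ρ β y0 k := by gcongr
    by_cases h2 : pr ρ β y0 j = pr ρ β y0 k
    · rw [h2, lev_pr]; exact hm
    · have hjk : j < k := by
        rcases Nat.lt_succ_iff_lt_or_eq.1 hj with h | h
        · exact h
        · exact absurd (by rw [h]) h2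
      have := pr_le (ρ := ρ) (β := β) (y0 := y0) j
      rw [lev_other (by omega) h2]
      exact hm.trans (ih j hjk)

/-- Sums over the levels before and after a step. -/
theorem sum_step (F : ℝ → ℝ) (k : ℕ) :
    ∑ U ∈ range (k + 2), F (lev ρ β y0 (k + 1) U) =
      ∑ U ∈ range (k + 1), F (lev ρ β y0 k U) - F (top ρ β y0 k) + F (ρ * top ρ β y0 k) +
        F (β * top ρ β y0 k) := by
  have hp : pr ρ β y0 k ∈ range (k + 1) := by
    rw [mem_range]; have := pr_le (ρ := ρ) (β := β) (y0 := y0) k; omega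
  rw [show k + 2 = (k + 1) + 1 from rfl, sum_range_succ, lev_new]
  rw [← Finset.add_sum_erase _ (fun U => F (lev ρ β y0 (k + 1) U)) hp,
    ← Finset.add_sum_erase _ (fun U => F (lev ρ β y0 k U)) hp]
  have h : ∑ U ∈ (range (k + 1)).erase (pr ρ β y0 k), F (lev ρ β y0 (k + 1) U) =
      ∑ U ∈ (range (k + 1)).erase (pr ρ β y0 k), F (lev ρ β y0 k U) := by
    refine sum_congr rfl fun U hU => ?_
    rw [mem_erase, mem_range] at hU
    rw [lev_other (by omega) hU.1]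
  rw [h]
  rw [lev_pr]
  have : lev ρ β y0 k (pr ρ β y0 k) = top ρ β y0 k := rfl
  rw [this]
  ring

/-- The `θ`-sum of the levels does not decrease. -/
theorem sum_rpow_ge (hρ : 0 < ρ) (hβ : 0 < β) (hy : 0 < y0) {θ : ℝ}
    (hθ : 1 ≤ ρ ^ θ + β ^ θ) (hθ0 : 0 < θ) (k : ℕ) :
    y0 ^ θ ≤ ∑ U ∈ range (k + 1), (lev ρ β y0 k U) ^ θ := by
  induction k with
  | zero => simp [lev]
  | succ k ih =>
    rw [sum_step (fun x => x ^ θ) k]
    have ht := top_pos hρ hβ hy k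
    rw [Real.mul_rpow hρ.le ht.le, Real.mul_rpow hβ.le ht.le]
    have h0 : 0 < (top ρ β y0 k) ^ θ := Real.rpow_pos_of_pos ht θ
    nlinarith

/-- Lower bound for the sum of the squares of the levels. -/
theorem sum_sq_ge (hρ : 0 < ρ) (hβ : 0 < β) (hy : 0 < y0) {θ : ℝ}
    (hθ : 1 ≤ ρ ^ θ + β ^ θ) (hθ0 : 0 < θ) (hθ2 : θ ≤ 2) (k : ℕ) :
    y0 ^ 2 * ((k : ℝ) + 1) ^ (-(2 / θ - 1)) ≤ ∑ U ∈ range (k + 1), (lev ρ β y0 k U) ^ 2 := by
  have h1 := sum_rpow_ge hρ hβ hy hθ hθ0 k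
  have hp : 1 ≤ 2 / θ := by rw [le_div_iff₀ hθ0]; linarith
  have h2 := Real.rpow_sum_le_const_mul_sum_rpow (range (k + 1))
    (fun U => (lev ρ β y0 k U) ^ θ) hp
  have habs : ∀ U, |(lev ρ β y0 k U) ^ θ| = (lev ρ β y0 k U) ^ θ := fun U =>
    abs_of_nonneg (Real.rpow_nonneg (lev_nonneg hρ hβ hy k U) θ)
  simp only [habs, card_range] at h2
  have hpow : ∀ U, ((lev ρ β y0 k U) ^ θ) ^ (2 / θ) = (lev ρ β y0 k U) ^ 2 := by
    intro U
    rw [← Real.rpow_mul (lev_nonneg hρ hβ hy k U), mul_div_cancel₀ _ hθ0.ne']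
    exact_mod_cast rfl
  simp only [hpow] at h2
  have h3 : (y0 ^ θ) ^ (2 / θ) ≤ (∑ U ∈ range (k + 1), (lev ρ β y0 k U) ^ θ) ^ (2 / θ) :=
    Real.rpow_le_rpow (by positivity) h1 (by positivity)
  rw [← Real.rpow_mul hy.le, mul_div_cancel₀ _ hθ0.ne'] at h3
  have h4 : y0 ^ (2 : ℝ) = y0 ^ 2 := by exact_mod_cast rfl
  rw [h4] at h3
  have h5 := h3.trans h2
  have hk : (0 : ℝ) < (k : ℝ) + 1 := by positivity
  push_cast at h5
  have h6 : ((k : ℝ) + 1) ^ (2 / θ - 1) * ((k : ℝ) + 1) ^ (-(2 / θ - 1)) = 1 := by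
    rw [← Real.rpow_add hk]; simp
  have h7 : 0 < ((k : ℝ) + 1) ^ (-(2 / θ - 1)) := Real.rpow_pos_of_pos hk _
  calc y0 ^ 2 * ((k : ℝ) + 1) ^ (-(2 / θ - 1))
      ≤ (((k : ℝ) + 1) ^ (2 / θ - 1) * ∑ U ∈ range (k + 1), (lev ρ β y0 k U) ^ 2) *
        ((k : ℝ) + 1) ^ (-(2 / θ - 1)) := by gcongr
    _ = (((k : ℝ) + 1) ^ (2 / θ - 1) * ((k : ℝ) + 1) ^ (-(2 / θ - 1))) *
        ∑ U ∈ range (k + 1), (lev ρ β y0 k U) ^ 2 := by ring
    _ = ∑ U ∈ range (k + 1), (lev ρ β y0 k U) ^ 2 := by rw [h6, one_mul]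

end Pool.Agent.W5h16.PG
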