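import Mathlib
import Pool.Agent.W5h16.PG.Dyn
import Pool.Agent.H331G.Step

/-!
# The dictionary and the greedy path
-/

set_option autoImplicit false

namespace Pool.Agent.W5h16.PG

open Finset Pool.Agent.H331G

variable {H : Type} [NormedAddCommGroup H] [InnerProductSpace ℝ H] {t : ℕ}

/-- The sum of the `t` vectors of unit `U`. -/
noncomputable def G (E : ℕ × Fin t → H) (U : ℕ) : H := ∑ i, E (U, i)

theorem inner_G_E {E : ℕ × Fin t → H} (hE : Orthonormal ℝ E) (U W : ℕ) (i : Fin t) :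
    inner ℝ (G E U) (E (W, i)) = if U = W then (1 : ℝ) else 0 := by
  classical
  rw [G, sum_inner]
  have h := orthonormal_iff_ite.1 hE
  simp only [h, Prod.mk.injEq]
  by_cases hUW : U = W
  · simp [hUW]
  · simp [hUW]

theorem inner_G_G {E : ℕ × Fin t → H} (hE : Orthonormal ℝ E) (U W : ℕ) :
    inner ℝ (G E U) (G E W) = if U = W then (t : ℝ) else 0 := by
  rw [show G E W = ∑ i, E (W, i) from rfl, inner_sum]
  simp only [inner_G_E hE]
  by_cases hUW : U = W
  · simp [hUW]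
  · simp [hUW]

/-- The vectors of the dictionary that the algorithm chooses. -/
noncomputable def psi (E : ℕ × Fin t → H) (p : ℕ → ℕ) (β : ℝ) (j : ℕ) : H :=
  (1 / (t : ℝ)) • G E (p j) - β • G E (j + 1)

/-- The residuals. -/
noncomputable def res (E : ℕ × Fin t → H) (L : ℕ → ℕ → ℝ) (k : ℕ) : H :=
  ∑ U ∈ range (k + 1), L k U • G E U

theorem inner_res_E {E : ℕ × Fin t → H} (hE : Orthonormal ℝ E) {L : ℕ → ℕ → ℝ}
    (hL : ∀ k U, k < U → L k U = 0) (k W : ℕ) (i : Fin t) :
    inner ℝ (res E L k) (E (W, i)) = L k W := by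
  rw [res, sum_inner]
  simp only [real_inner_smul_left, inner_G_E hE, mul_ite, mul_one, mul_zero]
  rw [sum_ite_eq']
  split_ifs with h
  · rfl
  · rw [mem_range] at h
    rw [hL k W (by omega)]

theorem inner_res_G {E : ℕ × Fin t → H} (hE : Orthonormal ℝ E) {L : ℕ → ℕ → ℝ}
    (hL : ∀ k U, k < U → L k U = 0) (k W : ℕ) :
    inner ℝ (res E L k) (G E W) = t * L k W := by
  rw [show G E W = ∑ i, E (W, i) from rfl, inner_sum]
  simp [inner_res_E hE hL]

theorem inner_res_psi (ht : 0 < t) {E : ℕ × Fin t → H} (hE : Orthonormal ℝ E) {L : ℕ → ℕ → ℝ}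
    (hL : ∀ k U, k < U → L k U = 0) (p : ℕ → ℕ) (β : ℝ) (k j : ℕ) :
    inner ℝ (res E L k) (psi E p β j) = L k (p j) - β * t * L k (j + 1) := by
  have ht' : (0 : ℝ) < t := by exact_mod_cast ht
  rw [psi, inner_sub_right, real_inner_smul_right, real_inner_smul_right, inner_res_G hE hL,
    inner_res_G hE hL]
  field_simp

theorem norm_res_sq {E : ℕ × Fin t → H} (hE : Orthonormal ℝ E) {L : ℕ → ℕ → ℝ}
    (hL : ∀ k U, k < U → L k U = 0) (k : ℕ) :
    ‖res E L k‖ ^ 2 = t * ∑ U ∈ range (k + 1), (L k U) ^ 2 := by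
  rw [← real_inner_self_eq_norm_sq]
  nth_rewrite 2 [res]
  rw [inner_sum, mul_sum]
  refine sum_congr rfl fun U _ => ?_
  rw [real_inner_smul_right, inner_res_G hE hL]
  ring

theorem norm_psi_sq (ht : 0 < t) {E : ℕ × Fin t → H} (hE : Orthonormal ℝ E) {p : ℕ → ℕ}
    (hp : ∀ j, p j ≤ j) {β : ℝ} (hβ : β ^ 2 * t = 1 - 1 / t) (j : ℕ) :
    ‖psi E p β j‖ ^ 2 = 1 := by
  have ht' : (0 : ℝ) < t := by exact_mod_cast ht
  have hne : p j ≠ j + 1 := by have := hp j; omega
  rw [← real_inner_self_eq_norm_sq, psi]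
  rw [inner_sub_left, inner_sub_right, inner_sub_right]
  simp only [real_inner_smul_left, real_inner_smul_right, inner_G_G hE, if_neg hne,
    if_neg hne.symm, if_true, mul_zero, sub_zero]
  have h1 : 1 / (t : ℝ) * (1 / (t : ℝ) * t) = 1 / t := by field_simp
  have h2 : β * (β * t) = 1 - 1 / t := by rw [← hβ]; ring
  rw [h1, h2]
  ring

/-- The step of the residuals. -/
theorem res_succ {E : ℕ × Fin t → H} {ρ β y0 : ℝ} (hρ : ρ = 1 - 1 / t) (k : ℕ) :
    res E (lev ρ β y0) (k + 1) = res E (lev ρ β y0) k -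
      top ρ β y0 k • psi E (pr ρ β y0) β k := by
  have hp : pr ρ β y0 k ∈ range (k + 1) := by
    rw [mem_range]; have := pr_le (ρ := ρ) (β := β) (y0 := y0) k; omega
  rw [res, res, sum_range_succ, lev_new, psi]
  rw [← Finset.add_sum_erase _ (fun U => lev ρ β y0 (k + 1) U • G E U) hp,
    ← Finset.add_sum_erase _ (fun U => lev ρ β y0 k U • G E U) hp]
  have h : ∑ U ∈ (range (k + 1)).erase (pr ρ β y0 k), lev ρ β y0 (k + 1) U • G E U =
      ∑ U ∈ (range (k + 1)).erase (pr ρ β y0 k), lev ρ β y0 k U • G E U := by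
    refine sum_congr rfl fun U hU => ?_
    rw [mem_erase, mem_range] at hU
    rw [lev_other (by omega) hU.1]
  rw [h, lev_pr]
  have h2 : lev ρ β y0 k (pr ρ β y0 k) = top ρ β y0 k := rfl
  rw [h2, smul_sub, smul_smul, smul_smul, hρ]
  module

/-- The dictionary. -/
def dict {ι : Type} (v : ι → H) (J : ℕ × Fin t → ι) (p : ℕ → ℕ) (β : ℝ) : Set H :=
  Set.range v ∪ Set.range (psi (v ∘ J) p β)

theorem greedy (ht : 0 < t) {ι : Type} {v : ι → H} (hv : Orthonormal ℝ v) {J : ℕ × Fin t → ι}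
    (hJ : Function.Injective J) {ρ β y0 : ℝ} (hρ : ρ = 1 - 1 / t) (hρ0 : 0 < ρ) (hρ1 : ρ ≤ 1)
    (hβ : 0 < β) (hβ1 : β ≤ 1) (hy : 0 < y0) (hc : β * t ≤ 1 + ρ) (m : ℕ) :
    IsGreedy (dict v J (pr ρ β y0) β) (res (v ∘ J) (lev ρ β y0)) m := by
  have hE : Orthonormal ℝ (v ∘ J) := hv.comp J hJ
  have hL : ∀ k U, k < U → lev ρ β y0 k U = 0 := fun k => lev_zero_of_lt k
  have hval : ∀ k, inner ℝ (res (v ∘ J) (lev ρ β y0) k) (psi (v ∘ J) (pr ρ β y0) β k) =
      top ρ β y0 k := by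
    intro k
    rw [inner_res_psi ht hE hL, hL k (k + 1) (by omega), mul_zero, sub_zero]
    rfl
  refine ⟨fun k => psi (v ∘ J) (pr ρ β y0) β k, fun k _ => ⟨Or.inr ⟨k, rfl⟩, ?_, ?_⟩⟩
  · have htop := top_pos hρ0 hβ hy k
    rw [hval, abs_of_pos htop]
    rintro g (⟨x, rfl⟩ | ⟨j, rfl⟩)
    · by_cases hx : ∃ a, J a = x
      · obtain ⟨⟨U, i⟩, rfl⟩ := hx
        have h1 := inner_res_E hE hL k U i
        rw [show (v ∘ J) (U, i) = v (J (U, i)) from rfl] at h1
        rw [h1, abs_of_nonneg (lev_nonneg hρ0 hβ hy k U)]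
        exact lev_le_top hρ0 hβ hy k U
      · have h0 : inner ℝ (res (v ∘ J) (lev ρ β y0) k) (v x) = 0 := by
          rw [res, sum_inner]
          refine sum_eq_zero fun U _ => ?_
          rw [real_inner_smul_left, G, sum_inner]
          have : ∑ i : Fin t, inner ℝ ((v ∘ J) (U, i)) (v x) = 0 := by
            refine sum_eq_zero fun i _ => ?_
            exact hv.2 (fun h => hx ⟨_, h⟩)
          rw [this, mul_zero]
        rw [h0, abs_zero]
        exact htop.le
    · rw [inner_res_psi ht hE hL]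
      have ht' : (0 : ℝ) < t := by exact_mod_cast ht
      have h1 := lev_le_top hρ0 hβ hy k (pr ρ β y0 j)
      have h2 := lev_nonneg hρ0 hβ hy k (pr ρ β y0 j)
      rw [abs_le]
      by_cases hjk : j < k
      · have h3 := parent_ge hρ0 hρ1 hβ hβ1 hy k j hjk
        have h4 := lev_le_top hρ0 hβ hy k (j + 1)
        have h5 := lev_nonneg hρ0 hβ hy k (j + 1)
        have h6 : β * t * lev ρ β y0 k (j + 1) ≤ (1 + ρ) * top ρ β y0 k := by
          gcongr
        have h7 : 0 ≤ β * t * lev ρ β y0 k (j + 1) := by positivity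
        constructor
        · nlinarith
        · linarith
      · rw [hL k (j + 1) (by omega), mul_zero, sub_zero]
        constructor
        · linarith
        · exact h1
  · rw [hval]
    exact res_succ hρ k

end Pool.Agent.W5h16.PG
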