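import Mathlib
import Pool.Agent.W5h16.PG.Vec
import Pool.Agent.W5h16.PG.Count

/-!
# Quasi-orthogonality of the dictionary
-/

set_option autoImplicit false

namespace Pool.Agent.W5h16.PG

open Finset Pool.Agent.H331G

variable {H : Type} [NormedAddCommGroup H] [InnerProductSpace ℝ H] {t : ℕ}

/-- A finite orthonormal system in the dictionary. -/
theorem exists_of_orthonormal {D : Set H} {lam : ℝ} {n : ℕ} {κ : Type} [Fintype κ]
    [Nonempty κ] {w : κ → H} (hw : Orthonormal ℝ w) (hD : ∀ a, w a ∈ D)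
    (hcard : (Fintype.card κ : ℝ) ≤ lam * n) {g : Fin n → H}
    (hg : ∀ i, g i ∈ Submodule.span ℝ (Set.range w)) :
    ∃ (M : ℕ) (φ : Fin M → H), (M : ℝ) ≤ lam * n ∧ (∀ j, φ j ∈ D) ∧
      (∀ i, g i ∈ Submodule.span ℝ (Set.range φ)) ∧
      ∀ f ∈ Submodule.span ℝ (Set.range φ),
        ∃ j, (lam * n) ^ (-(1 / 2 : ℝ)) * ‖f‖ ≤ |inner ℝ f (φ j)| := by
  classical
  have hr : Set.range (w ∘ (Fintype.equivFin κ).symm) = Set.range w :=
    EquivLike.range_comp w _
  refine ⟨Fintype.card κ, w ∘ (Fintype.equivFin κ).symm, hcard, fun j => hD _, ?_, ?_⟩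
  · rw [hr]; exact hg
  · rw [hr]
    intro f hf
    have hc0 : (0 : ℝ) < Fintype.card κ := by exact_mod_cast Fintype.card_pos
    have hl0 : 0 < lam * n := hc0.trans_le hcard
    obtain ⟨c, hc⟩ := (Submodule.mem_span_range_iff_exists_fun ℝ).1 hf
    have hin : ∀ a, inner ℝ f (w a) = c a := by
      intro a
      rw [← hc, real_inner_comm]
      exact hw.inner_right_fintype c a
    have hnorm : ‖f‖ ^ 2 = ∑ a, (c a) ^ 2 := by
      rw [← real_inner_self_eq_norm_sq]
      nth_rewrite 2 [← hc]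
      rw [inner_sum]
      refine sum_congr rfl fun a _ => ?_
      rw [real_inner_smul_right, hin]
      ring
    obtain ⟨a, -, ha⟩ := exists_max_image (univ : Finset κ) (fun a => (c a) ^ 2) univ_nonempty
    refine ⟨Fintype.equivFin κ a, ?_⟩
    rw [Function.comp_apply, Equiv.symm_apply_apply, hin]
    have h1 : ‖f‖ ^ 2 ≤ Fintype.card κ * (c a) ^ 2 := by
      rw [hnorm]
      calc ∑ b, (c b) ^ 2 ≤ ∑ b : κ, (c a) ^ 2 := sum_le_sum fun b _ => ha b (mem_univ b)
        _ = Fintype.card κ * (c a) ^ 2 := by simp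
    have h2 : ‖f‖ ^ 2 ≤ (lam * n) * (c a) ^ 2 :=
      h1.trans (by gcongr)
    have h3 : ((lam * n) ^ (-(1 / 2 : ℝ))) ^ 2 = (lam * n)⁻¹ := by
      rw [← Real.rpow_natCast, ← Real.rpow_mul hl0.le]
      have h4 : (-(1 / 2 : ℝ)) * ((2 : ℕ) : ℝ) = -1 := by norm_num
      rw [h4, Real.rpow_neg_one]
    refine abs_le_of_sq_le_sq' ?_ (abs_nonneg _) |>.2
    rw [mul_pow, h3, sq_abs, inv_mul_le_iff₀ hl0]
    exact h2

theorem inner_psi_v {ι : Type} {v : ι → H} (hv : Orthonormal ℝ v) {J : ℕ × Fin t → ι}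
    {p : ℕ → ℕ} {β : ℝ} {j : ℕ} {x : ι} (h1 : ∀ i, J (p j, i) ≠ x)
    (h2 : ∀ i, J (j + 1, i) ≠ x) : inner ℝ (psi (v ∘ J) p β j) (v x) = 0 := by
  have hG : ∀ U, (∀ i, J (U, i) ≠ x) → inner ℝ (G (v ∘ J) U) (v x) = 0 := by
    intro U hU
    rw [G, sum_inner]
    exact sum_eq_zero fun i _ => hv.2 (hU i)
  rw [psi, inner_sub_left, real_inner_smul_left, real_inner_smul_left, hG _ h1, hG _ h2]
  ring

theorem inner_psi_psi {E : ℕ × Fin t → H} (hE : Orthonormal ℝ E)
    {p : ℕ → ℕ} {β : ℝ} {j j' : ℕ} (h1 : p j ≠ p j') (h2 : p j ≠ j' + 1) (h3 : j + 1 ≠ p j')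
    (h4 : j ≠ j') : inner ℝ (psi E p β j) (psi E p β j') = 0 := by
  have h5 : j + 1 ≠ j' + 1 := by omega
  rw [psi, psi]
  simp only [inner_sub_left, inner_sub_right, real_inner_smul_left, real_inner_smul_right,
    inner_G_G hE, if_neg h1, if_neg h2, if_neg h3, if_neg h5]
  ring

/-- The dictionary is `3 t / 2`-quasi-orthogonal. -/
theorem quasi (ht : 2 ≤ t) {ι : Type} {v : ι → H} (hv : Orthonormal ℝ v) {J : ℕ × Fin t → ι}
    (hJ : Function.Injective J) {p : ℕ → ℕ} (hp : ∀ j, p j ≤ j) {β : ℝ}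
    (hβ : β ^ 2 * t = 1 - 1 / t) {lam : ℝ} (hlam : 3 * t / 2 ≤ lam) :
    IsQuasiOrthogonal (dict v J p β) lam := by
  classical
  intro n hn g hg
  have hE : Orthonormal ℝ (v ∘ J) := hv.comp J hJ
  -- names of the given elements
  have hs : ∀ i, ∃ s : ι ⊕ ℕ, g i = Sum.elim v (psi (v ∘ J) p β) s := by
    intro i
    rcases hg i with ⟨x, hx⟩ | ⟨j, hj⟩
    · exact ⟨Sum.inl x, hx.symm⟩
    · exact ⟨Sum.inr j, hj.symm⟩
  choose s hs using hs
  set S : Finset (ι ⊕ ℕ) := univ.image s with hS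
  have hScard : S.card ≤ n := by
    refine card_image_le.trans ?_
    simp
  set X : Finset ι := S.toLeft with hX
  set E : Finset ℕ := S.toRight with hEdef
  have hXE : X.card + E.card = S.card := card_toLeft_add_card_toRight
  set R : ι → ℕ → Prop := fun x U => ∃ i, J (U, i) = x with hR
  have hR1 : ∀ x U U', R x U → R x U' → U = U' := by
    rintro x U U' ⟨i, hi⟩ ⟨i', hi'⟩
    exact (Prod.ext_iff.1 (hJ (hi.trans hi'.symm))).1
  set B := busy p R E X with hB
  set 𝒰 := units p R E X with hU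
  set K := E \ B with hK
  set X' := X.filter (fun x => ∃ U ∈ 𝒰, R x U) with hX'
  set T1 := (𝒰 ×ˢ (univ : Finset (Fin t))).image J with hT1
  set T := X ∪ T1 with hT
  have hcount : 2 * 𝒰.card ≤ 3 * B.card + X'.card := by
    have h := count (R := R) (E := E) (X := X) hp hR1
    convert h
  -- cardinality
  have hBE : B ⊆ E := filter_subset _ _
  have hKcard : K.card + B.card = E.card := by
    rw [hK, card_sdiff_of_subset hBE]
    have := card_le_card hBE
    omega
  have hTcard : T.card + X'.card ≤ X.card + t * 𝒰.card := by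
    have h1 : T = (X \ X') ∪ T1 := by
      ext x
      rw [hT, mem_union, mem_union, mem_sdiff]
      constructor
      · rintro (h | h)
        · by_cases hx : x ∈ X'
          · right
            rw [hX', mem_filter] at hx
            obtain ⟨-, U, hU', i, hi⟩ := hx
            rw [hT1, mem_image]
            exact ⟨(U, i), by simp [hU'], hi⟩
          · exact Or.inl ⟨h, hx⟩
        · exact Or.inr h
      · rintro (h | h)
        · exact Or.inl h.1
        · exact Or.inr h
    have h2 : T1.card ≤ t * 𝒰.card := by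
      refine card_image_le.trans ?_
      rw [card_product, card_univ, Fintype.card_fin, mul_comm]
    have h3 : (X \ X').card + X'.card = X.card := by
      have hsub : X' ⊆ X := filter_subset _ _
      rw [card_sdiff_of_subset hsub]
      have := card_le_card hsub
      omega
    have h4 := card_union_le (X \ X') T1
    rw [← h1] at h4
    omega
  have htotal : 2 * (T.card + K.card) ≤ 3 * t * n := by
    have hX'X : X'.card ≤ X.card := card_le_card (filter_subset _ _)
    have h5 : t * (2 * 𝒰.card) ≤ t * (3 * B.card + X'.card) := Nat.mul_le_mul_left t hcount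
    have h6 : 3 * t * (X.card + E.card) ≤ 3 * t * n := Nat.mul_le_mul_left _ (by omega)
    obtain ⟨t', rfl⟩ : ∃ t', t = t' + 2 := ⟨t - 2, by omega⟩
    have h7 : t' * X'.card ≤ t' * X.card := Nat.mul_le_mul_left _ hX'X
    have h8 : t' * B.card ≤ t' * E.card := Nat.mul_le_mul_left _ (by omega)
    have h9 : 0 ≤ t' * X.card := Nat.zero_le _
    ring_nf at hTcard h5 h6 h7 h8 h9 hKcard ⊢
    linarith
  -- the system
  set w : T ⊕ K → H := Sum.elim (fun x => v x) (fun j => psi (v ∘ J) p β j) with hw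
  have hKiso : ∀ j ∈ K, ∀ U, (U = p j ∨ U = j + 1) → U ∉ 𝒰 ∧ (∀ x ∈ X, ¬ R x U) ∧
      ∀ j' ∈ E, j' ≠ j → ¬ (U = p j' ∨ U = j' + 1) := by
    intro j hj U hUj
    rw [hK, mem_sdiff] at hj
    refine ⟨fun h => hj.2 (busy_of_touch h hj.1 hUj), fun x hx hxU => ?_, fun j' hj' hne h => ?_⟩
    · exact hj.2 (mem_busy_of_two_le hj.1 hUj (two_le_deg_of_point hj.1 hx hUj hxU))
    · exact hj.2 (mem_busy_of_two_le hj.1 hUj
        (two_le_deg_of_edges hj.1 hj' hne.symm hUj h))
  have hKT : ∀ j ∈ K, ∀ x ∈ T, inner ℝ (psi (v ∘ J) p β j) (v x) = 0 := by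
    intro j hj x hx
    have key : ∀ U, (U = p j ∨ U = j + 1) → ∀ i, J (U, i) ≠ x := by
      intro U hUj i hi
      obtain ⟨h1, h2, -⟩ := hKiso j hj U hUj
      rw [hT, mem_union] at hx
      rcases hx with hx | hx
      · exact h2 x hx ⟨i, hi⟩
      · rw [hT1, mem_image] at hx
        obtain ⟨⟨U', i'⟩, hU', hi'⟩ := hx
        rw [mem_product] at hU'
        have := (Prod.ext_iff.1 (hJ (hi.trans hi'.symm))).1
        simp only at this
        rw [this] at h1
        exact h1 hU'.1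
    exact inner_psi_v hv (key _ (Or.inl rfl)) (key _ (Or.inr rfl))
  have hKK : ∀ j ∈ K, ∀ j' ∈ K, j ≠ j' →
      inner ℝ (psi (v ∘ J) p β j) (psi (v ∘ J) p β j') = 0 := by
    intro j hj j' hj' hne
    have hj'E : j' ∈ E := (mem_sdiff.1 hj').1
    have k1 := (hKiso j hj (p j) (Or.inl rfl)).2.2 j' hj'E hne.symm
    have k2 := (hKiso j hj (j + 1) (Or.inr rfl)).2.2 j' hj'E hne.symm
    rw [not_or] at k1 k2
    exact inner_psi_psi hE k1.1 k1.2 k2.1 hne
  have hworth : Orthonormal ℝ w := by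
    constructor
    · rintro (x | j)
      · exact hv.1 _
      · have h1 := norm_psi_sq (by omega) hE hp hβ (j : ℕ)
        have h2 : ‖psi (v ∘ J) p β j‖ = 1 := by
          have := norm_nonneg (psi (v ∘ J) p β j)
          nlinarith
        exact h2
    · rintro (x | j) (x' | j') hne
      · exact hv.2 (fun h => hne (by rw [Subtype.ext h]))
      · have := hKT j' j'.2 x x.2
        rw [real_inner_comm] at this
        exact this
      · exact hKT j j.2 x' x'.2
      · exact hKK j j.2 j' j'.2 (fun h => hne (by rw [Subtype.ext h]))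
  have hmem : ∀ i, g i ∈ Submodule.span ℝ (Set.range w) := by
    intro i
    have hsi : s i ∈ S := mem_image_of_mem _ (mem_univ i)
    have hvT : ∀ x ∈ T, v x ∈ Submodule.span ℝ (Set.range w) := fun x hx =>
      Submodule.subset_span ⟨Sum.inl ⟨x, hx⟩, rfl⟩
    rw [hs i]
    rcases hsi' : s i with x | j
    · rw [hsi'] at hsi
      have hxX : x ∈ X := mem_toLeft.2 hsi
      exact hvT x (mem_union_left _ hxX)
    · rw [hsi'] at hsi
      have hjE : j ∈ E := mem_toRight.2 hsi
      by_cases hjB : j ∈ B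
      · have hGU : ∀ U ∈ 𝒰, G (v ∘ J) U ∈ Submodule.span ℝ (Set.range w) := by
          intro U hU'
          refine Submodule.sum_mem _ fun i _ => hvT _ (mem_union_right _ ?_)
          rw [hT1, mem_image]
          exact ⟨(U, i), by simp [hU'], rfl⟩
        refine Submodule.sub_mem _ (Submodule.smul_mem _ _ (hGU _ ?_))
          (Submodule.smul_mem _ _ (hGU _ ?_))
        · exact mem_units.2 ⟨j, hjB, Or.inl rfl⟩
        · exact mem_units.2 ⟨j, hjB, Or.inr rfl⟩
      · exact Submodule.subset_span ⟨Sum.inr ⟨j, mem_sdiff.2 ⟨hjE, hjB⟩⟩, rfl⟩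
  haveI : Nonempty (T ⊕ K) := by
    by_contra hemp
    rw [not_nonempty_iff] at hemp
    have h1 := hmem ⟨0, by omega⟩
    rw [Set.range_eq_empty, Submodule.span_empty, Submodule.mem_bot] at h1
    have h2 : ‖g ⟨0, by omega⟩‖ = 1 := by
      rw [hs]
      rcases s ⟨0, by omega⟩ with x | j
      · exact hv.1 x
      · have h1 := norm_psi_sq (by omega) hE hp hβ (j : ℕ)
        have := norm_nonneg (psi (v ∘ J) p β j)
        change ‖psi (v ∘ J) p β j‖ = 1
        nlinarith
    rw [h1, norm_zero] at h2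
    exact zero_ne_one h2
  refine exists_of_orthonormal hworth ?_ ?_ hmem
  · rintro (x | j)
    · exact Or.inl ⟨x, rfl⟩
    · exact Or.inr ⟨j, rfl⟩
  · rw [Fintype.card_sum, Fintype.card_coe, Fintype.card_coe]
    have h1 : (2 : ℝ) * (T.card + K.card) ≤ 3 * t * n := by exact_mod_cast htotal
    have h2 : 3 * (t : ℝ) / 2 * n ≤ lam * n := by gcongr
    push_cast
    linarith

end Pool.Agent.W5h16.PG
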