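import Mathlib
import Pool.Agent.W5h16.PG.Vec

/-!
# Well-conditioned systems in the dictionary
-/

set_option autoImplicit false

namespace Pool.Agent.W5h16.PG

open Finset Pool.Agent.H331G

variable {H : Type} [NormedAddCommGroup H] [InnerProductSpace ℝ H] {t : ℕ}

/-- Lower Riesz bound from small row sums. -/
theorem riesz {κ : Type} [Fintype κ] [DecidableEq κ] {w : κ → H} (hw1 : ∀ k, ‖w k‖ = 1) {γ : ℝ}
    (hrow : ∀ k, ∑ k' ∈ univ.erase k, |inner ℝ (w k) (w k')| ≤ γ) (e : κ → ℝ) :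
    (1 - γ) * ∑ k, (e k) ^ 2 ≤ ‖∑ k, e k • w k‖ ^ 2 := by
  have h1 : ‖∑ k, e k • w k‖ ^ 2 = ∑ k, ∑ k', e k * e k' * inner ℝ (w k) (w k') := by
    rw [← real_inner_self_eq_norm_sq, sum_inner]
    refine sum_congr rfl fun k _ => ?_
    rw [inner_sum]
    refine sum_congr rfl fun k' _ => ?_
    rw [real_inner_smul_left, real_inner_smul_right]
    ring
  have h2 : ∀ k, ∑ k', e k * e k' * inner ℝ (w k) (w k') =
      (e k) ^ 2 + ∑ k' ∈ univ.erase k, e k * e k' * inner ℝ (w k) (w k') := by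
    intro k
    rw [← Finset.add_sum_erase _ _ (mem_univ k), real_inner_self_eq_norm_sq, hw1]
    ring
  rw [h1, sum_congr rfl fun k _ => h2 k, sum_add_distrib]
  -- the off-diagonal part
  have h3 : -(∑ k, ∑ k' ∈ univ.erase k, e k * e k' * inner ℝ (w k) (w k')) ≤
      ∑ k, ∑ k' ∈ univ.erase k, ((e k) ^ 2 / 2 * |inner ℝ (w k) (w k')| +
        (e k') ^ 2 / 2 * |inner ℝ (w k) (w k')|) := by
    rw [← sum_neg_distrib]
    refine sum_le_sum fun k _ => ?_
    rw [← sum_neg_distrib]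
    refine sum_le_sum fun k' _ => ?_
    have h4 : -(e k * e k' * inner ℝ (w k) (w k')) ≤ |e k * e k'| * |inner ℝ (w k) (w k')| := by
      rw [← abs_mul]
      exact neg_le_abs _
    have h5 : |e k * e k'| ≤ (e k) ^ 2 / 2 + (e k') ^ 2 / 2 := by
      rw [abs_le]
      constructor <;> nlinarith [sq_nonneg (e k + e k'), sq_nonneg (e k - e k')]
    have h6 : 0 ≤ |inner ℝ (w k) (w k')| := abs_nonneg _
    nlinarith
  have h7 : ∑ k, ∑ k' ∈ univ.erase k, ((e k) ^ 2 / 2 * |inner ℝ (w k) (w k')| +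
        (e k') ^ 2 / 2 * |inner ℝ (w k) (w k')|) ≤ γ * ∑ k, (e k) ^ 2 := by
    have h8 : ∀ k, ∑ k' ∈ univ.erase k, ((e k) ^ 2 / 2 * |inner ℝ (w k) (w k')| +
        (e k') ^ 2 / 2 * |inner ℝ (w k) (w k')|) =
        (e k) ^ 2 / 2 * ∑ k' ∈ univ.erase k, |inner ℝ (w k) (w k')| +
        ∑ k' ∈ univ.erase k, (e k') ^ 2 / 2 * |inner ℝ (w k) (w k')| := by
      intro k
      rw [sum_add_distrib, mul_sum]
    have h9 : ∑ k, ∑ k' ∈ univ.erase k, (e k') ^ 2 / 2 * |inner ℝ (w k) (w k')| =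
        ∑ k, (e k) ^ 2 / 2 * ∑ k' ∈ univ.erase k, |inner ℝ (w k) (w k')| := by
      have h10 : ∀ k, ∑ k' ∈ univ.erase k, (e k') ^ 2 / 2 * |inner ℝ (w k) (w k')| =
          ∑ k', if k' ≠ k then (e k') ^ 2 / 2 * |inner ℝ (w k) (w k')| else 0 := by
        intro k
        rw [← sum_filter]
        refine sum_congr ?_ fun _ _ => rfl
        ext k'
        simp
      have h11 : ∀ k, (e k) ^ 2 / 2 * ∑ k' ∈ univ.erase k, |inner ℝ (w k) (w k')| =
          ∑ k', if k ≠ k' then (e k) ^ 2 / 2 * |inner ℝ (w k') (w k)| else 0 := by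
        intro k
        rw [mul_sum, ← sum_filter]
        have hs : univ.filter (fun k' => k ≠ k') = univ.erase k := by
          ext k'
          simp [eq_comm]
        rw [hs]
        refine sum_congr rfl fun k' _ => ?_
        rw [real_inner_comm]
      rw [sum_congr rfl fun k _ => h10 k, sum_congr rfl fun k _ => h11 k, sum_comm]
    rw [sum_congr rfl fun k _ => h8 k, sum_add_distrib, h9, ← sum_add_distrib, mul_sum]
    refine sum_le_sum fun k _ => ?_
    have h12 := hrow k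
    nlinarith [sq_nonneg (e k)]
  linarith

/-- An orthonormal system and a system with small row sums, orthogonal to each other. -/
theorem exists_of_system {D : Set H} {lam : ℝ} {n : ℕ} {α κ : Type} [Fintype α] [Fintype κ]
    [Nonempty (α ⊕ κ)] {v : α → H} (hv : Orthonormal ℝ v) {w : κ → H} (hw1 : ∀ k, ‖w k‖ = 1)
    (hvw : ∀ a k, inner ℝ (v a) (w k) = 0) {γ : ℝ} (hγ : γ < 1) [DecidableEq κ]
    (hrow : ∀ k, ∑ k' ∈ univ.erase k, |inner ℝ (w k) (w k')| ≤ γ)
    (hDv : ∀ a, v a ∈ D) (hDw : ∀ k, w k ∈ D) (hl0 : 0 < lam * n)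
    (hγ0 : 0 ≤ γ)
    (hcard : (Fintype.card α : ℝ) + Fintype.card κ / (1 - γ) ≤ lam * n) {g : Fin n → H}
    (hg : ∀ i, g i ∈ Submodule.span ℝ (Set.range (Sum.elim v w))) :
    ∃ (M : ℕ) (φ : Fin M → H), (M : ℝ) ≤ lam * n ∧ (∀ j, φ j ∈ D) ∧
      (∀ i, g i ∈ Submodule.span ℝ (Set.range φ)) ∧
      ∀ f ∈ Submodule.span ℝ (Set.range φ),
        ∃ j, (lam * n) ^ (-(1 / 2 : ℝ)) * ‖f‖ ≤ |inner ℝ f (φ j)| := by
  classical
  set s : α ⊕ κ → H := Sum.elim v w with hs
  have hr : Set.range (s ∘ (Fintype.equivFin (α ⊕ κ)).symm) = Set.range s :=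
    EquivLike.range_comp s _
  have h1γ : 0 < 1 - γ := by linarith
  refine ⟨Fintype.card (α ⊕ κ), s ∘ (Fintype.equivFin (α ⊕ κ)).symm, ?_, ?_, ?_, ?_⟩
  · rw [Fintype.card_sum]
    push_cast
    have h1 : (Fintype.card κ : ℝ) ≤ Fintype.card κ / (1 - γ) := by
      rw [le_div_iff₀ h1γ]
      have : (0 : ℝ) ≤ Fintype.card κ := Nat.cast_nonneg _
      nlinarith
    linarith
  · intro j
    rw [Function.comp_apply]
    rcases (Fintype.equivFin (α ⊕ κ)).symm j with a | k
    · exact hDv a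
    · exact hDw k
  · rw [hr]; exact hg
  · rw [hr]
    intro f hf
    obtain ⟨c, hc⟩ := (Submodule.mem_span_range_iff_exists_fun ℝ).1 hf
    rw [Fintype.sum_sum_type] at hc
    simp only [hs, Sum.elim_inl, Sum.elim_inr] at hc
    set f1 : H := ∑ a, c (Sum.inl a) • v a with hf1
    set f2 : H := ∑ k, c (Sum.inr k) • w k with hf2
    have hin1 : ∀ a, inner ℝ f (v a) = c (Sum.inl a) := by
      intro a
      rw [← hc, inner_add_left]
      have h1 : inner ℝ f1 (v a) = c (Sum.inl a) := by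
        rw [real_inner_comm]
        exact hv.inner_right_fintype (fun a => c (Sum.inl a)) a
      have h2 : inner ℝ f2 (v a) = 0 := by
        rw [hf2, sum_inner]
        refine sum_eq_zero fun k _ => ?_
        rw [real_inner_smul_left, real_inner_comm, hvw, mul_zero]
      rw [h1, h2, add_zero]
    have hin2 : ∀ k, inner ℝ f (w k) = inner ℝ f2 (w k) := by
      intro k
      rw [← hc, inner_add_left]
      have h1 : inner ℝ f1 (w k) = 0 := by
        rw [hf1, sum_inner]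
        refine sum_eq_zero fun a _ => ?_
        rw [real_inner_smul_left, hvw, mul_zero]
      rw [h1, zero_add]
    have h12 : inner ℝ f1 f2 = 0 := by
      rw [hf1, hf2, sum_inner]
      refine sum_eq_zero fun a _ => ?_
      rw [real_inner_smul_left, inner_sum]
      rw [sum_eq_zero (fun k _ => by rw [real_inner_smul_right, hvw, mul_zero]), mul_zero]
    have hnorm : ‖f‖ ^ 2 = ‖f1‖ ^ 2 + ‖f2‖ ^ 2 := by
      rw [← hc, ← real_inner_self_eq_norm_sq, inner_add_left, inner_add_right, inner_add_right,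
        real_inner_comm f1 f2, h12, real_inner_self_eq_norm_sq, real_inner_self_eq_norm_sq]
      ring
    have hn1 : ‖f1‖ ^ 2 = ∑ a, (inner ℝ f (v a)) ^ 2 := by
      rw [← real_inner_self_eq_norm_sq]
      nth_rewrite 2 [hf1]
      rw [inner_sum]
      refine sum_congr rfl fun a _ => ?_
      rw [real_inner_smul_right, hin1]
      have : inner ℝ f1 (v a) = c (Sum.inl a) := by
        rw [real_inner_comm]
        exact hv.inner_right_fintype (fun a => c (Sum.inl a)) a
      rw [this]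
      ring
    have hn2 : ‖f2‖ ^ 2 ≤ (∑ k, (inner ℝ f (w k)) ^ 2) / (1 - γ) := by
      have h1 := riesz hw1 hrow (fun k => c (Sum.inr k))
      rw [← hf2] at h1
      have h2 : ‖f2‖ ^ 2 = ∑ k, c (Sum.inr k) * inner ℝ f (w k) := by
        rw [← real_inner_self_eq_norm_sq]
        nth_rewrite 2 [hf2]
        rw [inner_sum]
        refine sum_congr rfl fun k _ => ?_
        rw [real_inner_smul_right, hin2]
      have h3 : (∑ k, c (Sum.inr k) * inner ℝ f (w k)) ^ 2 ≤
          (∑ k, (c (Sum.inr k)) ^ 2) * ∑ k, (inner ℝ f (w k)) ^ 2 :=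
        sum_mul_sq_le_sq_mul_sq _ _ _
      rw [← h2] at h3
      rw [le_div_iff₀ h1γ]
      set A := ‖f2‖ ^ 2 with hA
      set B := ∑ k, (c (Sum.inr k)) ^ 2 with hB
      set C := ∑ k, (inner ℝ f (w k)) ^ 2 with hC
      have hA0 : 0 ≤ A := by positivity
      have hC0 : 0 ≤ C := sum_nonneg fun _ _ => sq_nonneg _
      by_cases hA1 : A = 0
      · rw [hA1]; linarith
      · have hA2 : 0 < A := lt_of_le_of_ne hA0 (Ne.symm hA1)
        have h5 : A ^ 2 * (1 - γ) ≤ A * C := by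
          calc A ^ 2 * (1 - γ) ≤ (B * C) * (1 - γ) := by gcongr
            _ = ((1 - γ) * B) * C := by ring
            _ ≤ A * C := by gcongr
        nlinarith
    -- the largest inner product
    obtain ⟨a, -, ha⟩ := exists_max_image (univ : Finset (α ⊕ κ))
      (fun a => (inner ℝ f (s a)) ^ 2) univ_nonempty
    refine ⟨Fintype.equivFin (α ⊕ κ) a, ?_⟩
    rw [Function.comp_apply, Equiv.symm_apply_apply]
    set q := (inner ℝ f (s a)) ^ 2 with hq
    have hq0 : 0 ≤ q := sq_nonneg _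
    have h4 : ∑ a, (inner ℝ f (v a)) ^ 2 ≤ Fintype.card α * q := by
      calc ∑ b, (inner ℝ f (v b)) ^ 2 ≤ ∑ b : α, q :=
            sum_le_sum fun b _ => ha (Sum.inl b) (mem_univ _)
        _ = Fintype.card α * q := by simp
    have h5 : ∑ k, (inner ℝ f (w k)) ^ 2 ≤ Fintype.card κ * q := by
      calc ∑ b, (inner ℝ f (w b)) ^ 2 ≤ ∑ b : κ, q :=
            sum_le_sum fun b _ => ha (Sum.inr b) (mem_univ _)
        _ = Fintype.card κ * q := by simp
    have h6 : ‖f‖ ^ 2 ≤ (lam * n) * q := by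
      rw [hnorm, hn1]
      calc ∑ a, (inner ℝ f (v a)) ^ 2 + ‖f2‖ ^ 2
          ≤ Fintype.card α * q + (Fintype.card κ * q) / (1 - γ) := by
            refine add_le_add h4 (hn2.trans ?_)
            gcongr
        _ = (Fintype.card α + Fintype.card κ / (1 - γ)) * q := by ring
        _ ≤ (lam * n) * q := by gcongr
    have h3 : ((lam * n) ^ (-(1 / 2 : ℝ))) ^ 2 = (lam * n)⁻¹ := by
      rw [← Real.rpow_natCast, ← Real.rpow_mul hl0.le]
      have h4 : (-(1 / 2 : ℝ)) * ((2 : ℕ) : ℝ) = -1 := by norm_num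
      rw [h4, Real.rpow_neg_one]
    refine abs_le_of_sq_le_sq' ?_ (abs_nonneg _) |>.2
    rw [mul_pow, h3, sq_abs, inv_mul_le_iff₀ hl0]
    exact h6

end Pool.Agent.W5h16.PG
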