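import Mathlib
import Pool.Agent.W5h16.PG.QO
import Pool.Agent.W5h16.PG.Sys
import Pool.Agent.W5h16.PG.Count2

/-!
# Quasi-orthogonality of the dictionary with a smaller constant
-/

set_option autoImplicit false

namespace Pool.Agent.W5h16.PG

open Finset Pool.Agent.H331G

variable {H : Type} [NormedAddCommGroup H] [InnerProductSpace ℝ H] {t : ℕ}

theorem inner_psi_le (ht : 0 < t) {E : ℕ × Fin t → H} (hE : Orthonormal ℝ E)
    {p : ℕ → ℕ} (hp : ∀ j, p j ≤ j) {β : ℝ} (hβ0 : 0 ≤ β) (hβt : 1 / (t : ℝ) ≤ β) {j j' : ℕ}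
    (h4 : j ≠ j') : |inner ℝ (psi E p β j) (psi E p β j')| ≤ β := by
  have ht' : (0 : ℝ) < t := by exact_mod_cast ht
  have h5 : j + 1 ≠ j' + 1 := by omega
  have hj := hp j
  have hj' := hp j'
  have e1 : (1 / (t : ℝ)) * (1 / (t : ℝ) * t) = 1 / t := by field_simp
  have e2 : (1 / (t : ℝ)) * (β * t) = β := by field_simp
  have e3 : β * (1 / (t : ℝ) * t) = β := by field_simp
  have h0 : 0 ≤ 1 / (t : ℝ) := by positivity
  rw [psi, psi]
  simp only [inner_sub_left, inner_sub_right, real_inner_smul_left, real_inner_smul_right,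
    inner_G_G hE, if_neg h5, mul_ite, mul_zero, e1, e2, e3]
  by_cases c1 : p j = p j'
  · rw [if_pos c1, if_neg (by omega), if_neg (by omega)]
    rw [abs_le]
    constructor <;> linarith
  · rw [if_neg c1]
    by_cases c2 : p j = j' + 1
    · rw [if_pos c2, if_neg (by omega)]
      rw [abs_le]
      constructor <;> linarith
    · rw [if_neg c2]
      by_cases c3 : j + 1 = p j'
      · rw [if_pos c3, abs_le]
        constructor <;> linarith
      · rw [if_neg c3]
        simpa using hβ0

/-- The dictionary is `4 t / 3`-quasi-orthogonal. -/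
theorem quasi2 (ht : 3 ≤ t) {ι : Type} {v : ι → H} (hv : Orthonormal ℝ v) {J : ℕ × Fin t → ι}
    (hJ : Function.Injective J) {p : ℕ → ℕ} (hp : ∀ j, p j ≤ j) {β : ℝ} (hβ0 : 0 ≤ β)
    (hβ : β ^ 2 * t = 1 - 1 / t) (hβ2 : β ≤ 1 / 2) {lam : ℝ} (hlam : 4 * t / 3 ≤ lam) :
    IsQuasiOrthogonal (dict v J p β) lam := by
  classical
  intro n hn g hg
  have ht' : (3 : ℝ) ≤ t := by exact_mod_cast ht
  have ht0 : (0 : ℝ) < t := by linarith
  have hE : Orthonormal ℝ (v ∘ J) := hv.comp J hJ
  have hβt : 1 / (t : ℝ) ≤ β := by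
    refine le_of_sq_le_sq ?_ hβ0
    have h1 : β ^ 2 = (1 - 1 / t) / t := by
      rw [← hβ]; field_simp
    rw [h1]
    have h2 : (1 - 1 / (t : ℝ)) / t - (1 / (t : ℝ)) ^ 2 = (t - 2) / t ^ 2 := by
      field_simp
      ring
    have h3 : 0 ≤ ((t : ℝ) - 2) / t ^ 2 := by
      apply div_nonneg
      · linarith
      · positivity
    linarith
  -- names of the given elements
  have hs : ∀ i, ∃ s : ι ⊕ ℕ, g i = Sum.elim v (psi (v ∘ J) p β) s := by
    intro i
    rcases hg i with ⟨x, hx⟩ | ⟨j, hj⟩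
    · exact ⟨Sum.inl x, hx.symm⟩
    · exact ⟨Sum.inr j, hj.symm⟩
  choose s hs using hs
  set S : Finset (ι ⊕ ℕ) := univ.image s with hS
  have hScard : S.card ≤ n := by
    refine card_image_le.trans ?_
    simp
  set X : Finset ι := S.toLeft with hX
  set E : Finset ℕ := S.toRight with hEdef
  have hXE : X.card + E.card = S.card := card_toLeft_add_card_toRight
  set R : ι → ℕ → Prop := fun x U => ∃ i, J (U, i) = x with hR
  have hR1 : ∀ x U U', R x U → R x U' → U = U' := by
    rintro x U U' ⟨i, hi⟩ ⟨i', hi'⟩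
    exact (Prod.ext_iff.1 (hJ (hi.trans hi'.symm))).1
  set B := C2.busy p R E X with hB
  set 𝒰 := C2.units p R E X with hU
  set K := E \ B with hK
  set X' := X.filter (fun x => ∃ U ∈ 𝒰, R x U) with hX'
  set T1 := (𝒰 ×ˢ (univ : Finset (Fin t))).image J with hT1
  set T := X ∪ T1 with hT
  have hcount : 3 * 𝒰.card ≤ 4 * B.card + 2 * X'.card := by
    have h := C2.count (R := R) (E := E) (X := X) hp hR1
    convert h
  -- cardinality
  have hBE : B ⊆ E := filter_subset _ _
  have hKcard : K.card + B.card = E.card := by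
    rw [hK, card_sdiff_of_subset hBE]
    have := card_le_card hBE
    omega
  have hTcard : T.card + X'.card ≤ X.card + t * 𝒰.card := by
    have h1 : T = (X \ X') ∪ T1 := by
      ext x
      rw [hT, mem_union, mem_union, mem_sdiff]
      constructor
      · rintro (h | h)
        · by_cases hx : x ∈ X'
          · right
            rw [hX', mem_filter] at hx
            obtain ⟨-, U, hU', i, hi⟩ := hx
            rw [hT1, mem_image]
            exact ⟨(U, i), by simp [hU'], hi⟩
          · exact Or.inl ⟨h, hx⟩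
        · exact Or.inr h
      · rintro (h | h)
        · exact Or.inl h.1
        · exact Or.inr h
    have h2 : T1.card ≤ t * 𝒰.card := by
      refine card_image_le.trans ?_
      rw [card_product, card_univ, Fintype.card_fin, mul_comm]
    have h3 : (X \ X').card + X'.card = X.card := by
      have hsub : X' ⊆ X := filter_subset _ _
      rw [card_sdiff_of_subset hsub]
      have := card_le_card hsub
      omega
    have h4 := card_union_le (X \ X') T1
    rw [← h1] at h4
    omega
  have htotal : (T.card : ℝ) + K.card / (1 - β) ≤ lam * n := by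
    have hX'X : (X'.card : ℝ) ≤ X.card := by
      exact_mod_cast card_le_card (filter_subset _ _)
    have a1 : (3 : ℝ) * 𝒰.card ≤ 4 * B.card + 2 * X'.card := by exact_mod_cast hcount
    have a2 : (T.card : ℝ) + X'.card ≤ X.card + t * 𝒰.card := by exact_mod_cast hTcard
    have a3 : (K.card : ℝ) + B.card = E.card := by exact_mod_cast hKcard
    have a4 : (X.card : ℝ) + E.card ≤ n := by
      have : X.card + E.card ≤ n := by omega
      exact_mod_cast this
    have a5 : (K.card : ℝ) / (1 - β) ≤ 2 * K.card := by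
      rw [div_le_iff₀ (by linarith)]
      have : (0 : ℝ) ≤ K.card := Nat.cast_nonneg _
      nlinarith
    have a6 : (t : ℝ) * (3 * 𝒰.card) ≤ t * (4 * B.card + 2 * X'.card) := by gcongr
    have a7 : (0 : ℝ) ≤ K.card := Nat.cast_nonneg _
    have a8 : (0 : ℝ) ≤ X.card := Nat.cast_nonneg _
    have a9 : (0 : ℝ) ≤ n := Nat.cast_nonneg _
    have a10 : ((t : ℝ) - 3) * K.card ≥ 0 := mul_nonneg (by linarith) a7
    have a11 : (2 * (t : ℝ) - 3) * (X.card - X'.card) ≥ 0 := mul_nonneg (by linarith) (by linarith)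
    have a12 : (t : ℝ) * (X.card + E.card) ≤ t * n := by gcongr
    have a13 : (t : ℝ) * (K.card + B.card) = t * E.card := by rw [a3]
    have a14 : (t : ℝ) * X.card ≥ 0 := by positivity
    have a15 : 4 * (t : ℝ) / 3 * n ≤ lam * n := by gcongr
    nlinarith
  -- the system
  have hKkeep : ∀ j ∈ K, C2.Keep p R E X j := by
    intro j hj
    rw [hK, mem_sdiff] at hj
    by_contra hcon
    exact hj.2 (by rw [hB, C2.busy, mem_filter]; exact ⟨hj.1, hcon⟩)
  have hKE : ∀ j ∈ K, j ∈ E := fun j hj => (mem_sdiff.1 hj).1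
  have hKiso : ∀ j ∈ K, ∀ U, (U = p j ∨ U = j + 1) → U ∉ 𝒰 ∧ (∀ x ∈ X, ¬ R x U) := by
    intro j hj U hUj
    have hjE := hKE j hj
    refine ⟨fun h => (mem_sdiff.1 hj).2 (C2.busy_of_touch h hjE hUj), fun x hx hxU => ?_⟩
    have h2 := C2.two_le_deg_of_point hjE hx hUj hxU
    obtain ⟨hd, -, j', hj', hne', hU', -⟩ := C2.keep_deg hjE (hKkeep j hj) hUj h2
    have := C2.three_le_deg_of_point hjE hj' hne'.symm hx hUj hU' hxU
    omega
  have hKT : ∀ j ∈ K, ∀ x ∈ T, inner ℝ (psi (v ∘ J) p β j) (v x) = 0 := by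
    intro j hj x hx
    have key : ∀ U, (U = p j ∨ U = j + 1) → ∀ i, J (U, i) ≠ x := by
      intro U hUj i hi
      obtain ⟨h1, h2⟩ := hKiso j hj U hUj
      rw [hT, mem_union] at hx
      rcases hx with hx | hx
      · exact h2 x hx ⟨i, hi⟩
      · rw [hT1, mem_image] at hx
        obtain ⟨⟨U', i'⟩, hU', hi'⟩ := hx
        rw [mem_product] at hU'
        have := (Prod.ext_iff.1 (hJ (hi.trans hi'.symm))).1
        simp only at this
        rw [this] at h1
        exact h1 hU'.1
    exact inner_psi_v hv (key _ (Or.inl rfl)) (key _ (Or.inr rfl))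
  -- at most one kept edge shares a unit with a kept edge
  have hshare : ∀ j j' : ℕ, j ≠ j' →
      inner ℝ (psi (v ∘ J) p β j) (psi (v ∘ J) p β j') ≠ 0 →
      ∃ U, (U = p j ∨ U = j + 1) ∧ (U = p j' ∨ U = j' + 1) := by
    intro j j' hne hin
    by_contra hcon
    push Not at hcon
    apply hin
    have k1 := hcon (p j) (Or.inl rfl)
    have k2 := hcon (j + 1) (Or.inr rfl)
    exact inner_psi_psi hE k1.1 k1.2 k2.1 hne
  have huniq : ∀ j ∈ K, ∀ k ∈ E, ∀ k' ∈ E, k ≠ j → k' ≠ j →
      (∃ U, (U = p j ∨ U = j + 1) ∧ (U = p k ∨ U = k + 1)) →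
      (∃ U, (U = p j ∨ U = j + 1) ∧ (U = p k' ∨ U = k' + 1)) → k = k' := by
    rintro j hj k hk k' hk' hne hne' ⟨U, hUj, hUk⟩ ⟨U', hUj', hUk'⟩
    have hjE := hKE j hj
    have d1 := C2.two_le_deg_of_edges (R := R) (X := X) hjE hk hne.symm hUj hUk
    have d2 := C2.two_le_deg_of_edges (R := R) (X := X) hjE hk' hne'.symm hUj' hUk'
    obtain ⟨hd, hd', -⟩ := C2.keep_deg hjE (hKkeep j hj) hUj d1
    have hUU : U' = U := by
      by_contra hcon
      have := hd' U' hUj' hcon
      omega
    by_contra hkk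
    rw [hUU] at hUk'
    have := C2.three_le_deg_of_edges (R := R) (X := X) hjE hk hk' hne.symm hne'.symm hkk hUj hUk
      hUk'
    omega
  set wv : T → H := fun x => v x with hwv
  set wk : K → H := fun j => psi (v ∘ J) p β j with hwk
  have hvorth : Orthonormal ℝ wv := hv.comp (fun x : T => (x : ι)) Subtype.val_injective
  have hw1 : ∀ k, ‖wk k‖ = 1 := by
    intro k
    have h1 := norm_psi_sq (by omega) hE hp hβ (k : ℕ)
    have := norm_nonneg (psi (v ∘ J) p β k)
    change ‖psi (v ∘ J) p β k‖ = 1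
    nlinarith
  have hvw : ∀ a k, inner ℝ (wv a) (wk k) = 0 := by
    intro a k
    rw [real_inner_comm]
    exact hKT k k.2 a a.2
  have hrow : ∀ k, ∑ k' ∈ univ.erase k, |inner ℝ (wk k) (wk k')| ≤ β := by
    intro k
    by_cases hex : ∃ k0, k0 ≠ k ∧ inner ℝ (wk k) (wk k0) ≠ 0
    · obtain ⟨k0, hk0, hin⟩ := hex
      rw [sum_eq_single k0]
      · exact inner_psi_le (by omega) hE hp hβ0 hβt (fun h => hk0 (Subtype.ext h.symm))
      · intro k1 hk1 hne
        rw [mem_erase] at hk1
        rw [abs_eq_zero]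
        by_contra hcon
        apply hne
        apply Subtype.ext
        refine (huniq k k.2 k0 (hKE _ k0.2) k1 (hKE _ k1.2) (fun h => hk0 (Subtype.ext h))
          (fun h => hk1.1 (Subtype.ext h)) (hshare _ _ (fun h => hk0 (Subtype.ext h.symm)) hin)
          (hshare _ _ (fun h => hk1.1 (Subtype.ext h.symm)) hcon)).symm
      · intro h
        exact absurd (mem_erase.2 ⟨hk0, mem_univ _⟩) h
    · push Not at hex
      rw [sum_eq_zero]
      · exact hβ0
      · intro k1 hk1
        rw [hex k1 (mem_erase.1 hk1).1, abs_zero]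
  have hmem : ∀ i, g i ∈ Submodule.span ℝ (Set.range (Sum.elim wv wk)) := by
    intro i
    have hsi : s i ∈ S := mem_image_of_mem _ (mem_univ i)
    have hvT : ∀ x ∈ T, v x ∈ Submodule.span ℝ (Set.range (Sum.elim wv wk)) := fun x hx =>
      Submodule.subset_span ⟨Sum.inl ⟨x, hx⟩, rfl⟩
    rw [hs i]
    rcases hsi' : s i with x | j
    · rw [hsi'] at hsi
      have hxX : x ∈ X := mem_toLeft.2 hsi
      exact hvT x (mem_union_left _ hxX)
    · rw [hsi'] at hsi
      have hjE : j ∈ E := mem_toRight.2 hsi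
      by_cases hjB : j ∈ B
      · have hGU : ∀ U ∈ 𝒰, G (v ∘ J) U ∈ Submodule.span ℝ (Set.range (Sum.elim wv wk)) := by
          intro U hU'
          refine Submodule.sum_mem _ fun i _ => hvT _ (mem_union_right _ ?_)
          rw [hT1, mem_image]
          exact ⟨(U, i), by simp [hU'], rfl⟩
        refine Submodule.sub_mem _ (Submodule.smul_mem _ _ (hGU _ ?_))
          (Submodule.smul_mem _ _ (hGU _ ?_))
        · exact C2.mem_units.2 ⟨j, hjB, Or.inl rfl⟩
        · exact C2.mem_units.2 ⟨j, hjB, Or.inr rfl⟩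
      · exact Submodule.subset_span ⟨Sum.inr ⟨j, mem_sdiff.2 ⟨hjE, hjB⟩⟩, rfl⟩
  haveI : Nonempty (T ⊕ K) := by
    by_contra hemp
    rw [not_nonempty_iff] at hemp
    have h1 := hmem ⟨0, by omega⟩
    rw [Set.range_eq_empty, Submodule.span_empty, Submodule.mem_bot] at h1
    have h2 : ‖g ⟨0, by omega⟩‖ = 1 := by
      rw [hs]
      rcases s ⟨0, by omega⟩ with x | j
      · exact hv.1 x
      · have h1 := norm_psi_sq (by omega) hE hp hβ (j : ℕ)
        have := norm_nonneg (psi (v ∘ J) p β j)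
        change ‖psi (v ∘ J) p β j‖ = 1
        nlinarith
    rw [h1, norm_zero] at h2
    exact zero_ne_one h2
  have hn0 : (0 : ℝ) < n := by exact_mod_cast hn
  have hl0 : 0 < lam * n := by
    have : 0 < lam := by linarith
    positivity
  refine exists_of_system hvorth hw1 hvw (γ := β) (by linarith) hrow
    (fun a => Or.inl ⟨a, rfl⟩) (fun k => Or.inr ⟨k, rfl⟩) hl0 hβ0 ?_ hmem
  rw [Fintype.card_coe, Fintype.card_coe]
  exact htotal

end Pool.Agent.W5h16.PG
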