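import Mathlib
import Pool.Agent.W5h16.PG.QO2

/-!
# Lower bounds for the pure greedy algorithm
-/

set_option autoImplicit false

namespace Pool.Agent.W5h16.PG

open Finset Pool.Agent.H331G

/-- The example, in any infinite-dimensional real Hilbert space. -/
theorem example_exists {t : ℕ} (ht : 3 ≤ t) {ρ β : ℝ} (hρ : ρ = 1 - 1 / t) (hβ0 : 0 < β)
    (hβ2 : β ≤ 1 / 2) (hβ : β ^ 2 * t = 1 - 1 / t) (hc : β * t ≤ 1 + ρ) {lam : ℝ}
    (hlam : 4 * t / 3 ≤ lam) {θ : ℝ} (hθ : 1 ≤ ρ ^ θ + β ^ θ) (hθ0 : 0 < θ) (hθ2 : θ ≤ 2)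
    (H : Type) [NormedAddCommGroup H] [InnerProductSpace ℝ H] [CompleteSpace H]
    (hH : ¬ FiniteDimensional ℝ H) (m : ℕ) :
    ∃ (D : Set H) (f : ℕ → H), IsDictionary D ∧ IsQuasiOrthogonal D lam ∧ f 0 ∈ A1 D ∧
      IsGreedy D f m ∧
      (t : ℝ) ^ (-(1 / 2 : ℝ)) * ((m : ℝ) + 1) ^ (-(1 / θ - 1 / 2)) ≤ ‖f m‖ := by
  classical
  have ht0 : 0 < t := by omega
  have ht' : (0 : ℝ) < t := by exact_mod_cast ht0
  have ht2 : (3 : ℝ) ≤ t := by exact_mod_cast ht
  have hβ1 : β ≤ 1 := by linarith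
  have hρ0 : 0 < ρ := by
    rw [hρ, sub_pos, div_lt_one ht']
    linarith
  have hρ1 : ρ ≤ 1 := by
    rw [hρ]
    have : 0 < 1 / (t : ℝ) := by positivity
    linarith
  obtain ⟨w, b, hb⟩ := exists_hilbertBasis ℝ H
  have hv : Orthonormal ℝ b := b.orthonormal
  have hinf : Infinite w := by
    by_contra hfin
    rw [not_infinite_iff_finite] at hfin
    apply hH
    have hdense := b.dense_span
    have hfd : FiniteDimensional ℝ (Submodule.span ℝ (Set.range b)) :=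
      FiniteDimensional.span_of_finite ℝ (Set.finite_range b)
    have hcl : IsClosed (Submodule.span ℝ (Set.range b) : Set H) :=
      Submodule.closed_of_finiteDimensional _
    rw [hcl.submodule_topologicalClosure_eq] at hdense
    rw [hdense] at hfd
    exact Module.Finite.equiv (Submodule.topEquiv (R := ℝ) (M := H))
  set e0 : ℕ × Fin t → ℕ := Encodable.encode with he0
  set J : ℕ × Fin t → w := fun a => Infinite.natEmbedding w (e0 a) with hJdef
  have hJ : Function.Injective J := fun a a' h =>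
    Encodable.encode_injective ((Infinite.natEmbedding w).injective h)
  set y0 : ℝ := 1 / t with hy0
  have hy : 0 < y0 := by positivity
  set p := pr ρ β y0 with hp
  set D : Set H := dict (b : w → H) J p β with hD
  have hE : Orthonormal ℝ ((b : w → H) ∘ J) := hv.comp J hJ
  have hL : ∀ k U, k < U → lev ρ β y0 k U = 0 := fun k => lev_zero_of_lt k
  refine ⟨D, res ((b : w → H) ∘ J) (lev ρ β y0), ⟨?_, ?_⟩,
    quasi2 ht hv hJ (fun j => pr_le j) hβ0.le hβ hβ2 hlam, ?_,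
    greedy ht0 hv hJ hρ hρ0 hρ1 hβ0 hβ1 hy hc m, ?_⟩
  · rintro g (⟨x, rfl⟩ | ⟨j, rfl⟩)
    · exact hv.1 x
    · have h1 := norm_psi_sq ht0 hE (fun j => pr_le (ρ := ρ) (β := β) (y0 := y0) j) hβ j
      have := norm_nonneg (psi ((b : w → H) ∘ J) p β j)
      change ‖psi ((b : w → H) ∘ J) p β j‖ = 1
      nlinarith
  · have h1 := b.dense_span
    have h2 : Submodule.span ℝ (Set.range b) ≤ Submodule.span ℝ D :=
      Submodule.span_mono Set.subset_union_left
    have h3 : (⊤ : Submodule ℝ H) = (Submodule.span ℝ D).topologicalClosure := by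
      refine le_antisymm ?_ le_top
      rw [← h1]
      exact Submodule.topologicalClosure_mono h2
    rw [dense_iff_closure_eq]
    have h4 := congrArg (fun S : Submodule ℝ H => (S : Set H)) h3
    simp only [Submodule.top_coe, Submodule.topologicalClosure_coe] at h4
    exact h4.symm
  · apply subset_closure
    have h1 : res ((b : w → H) ∘ J) (lev ρ β y0) 0 = ∑ i : Fin t, (1 / (t : ℝ)) • b (J (0, i)) := by
      rw [res]
      simp only [zero_add, range_one, sum_singleton]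
      rw [G, smul_sum]
      refine sum_congr rfl fun i _ => ?_
      simp [lev, hy0]
    rw [h1]
    refine (convex_convexHull ℝ _).sum_mem (fun _ _ => by positivity) ?_ ?_
    · simp [ht'.ne']
    · intro i _
      exact subset_convexHull ℝ _ (Or.inl (Or.inl ⟨_, rfl⟩))
  · have h1 := norm_res_sq hE hL m
    have h2 := sum_sq_ge hρ0 hβ0 hy hθ hθ0 hθ2 m
    have hm : (0 : ℝ) < (m : ℝ) + 1 := by positivity
    refine le_of_sq_le_sq ?_ (norm_nonneg _)
    rw [h1, mul_pow]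
    have h3 : ((t : ℝ) ^ (-(1 / 2 : ℝ))) ^ 2 = 1 / t := by
      rw [← Real.rpow_natCast, ← Real.rpow_mul ht'.le]
      have h4 : (-(1 / 2 : ℝ)) * ((2 : ℕ) : ℝ) = -1 := by norm_num
      rw [h4, Real.rpow_neg_one, one_div]
    have h5 : (((m : ℝ) + 1) ^ (-(1 / θ - 1 / 2))) ^ 2 = ((m : ℝ) + 1) ^ (-(2 / θ - 1)) := by
      rw [← Real.rpow_natCast, ← Real.rpow_mul hm.le]
      congr 1
      push_cast
      ring
    rw [h3, h5]
    have h6 : (1 : ℝ) / t = t * y0 ^ 2 := by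
      rw [hy0]; field_simp
    rw [h6, mul_assoc]
    gcongr

theorem le_rpow_of_pow_le {a b : ℝ} (ha : 0 ≤ a) (hb : 0 ≤ b) (p : ℕ) {q : ℕ} (hq : 0 < q)
    (h : a ^ q ≤ b ^ p) : a ≤ b ^ ((p : ℝ) / q) := by
  have h1 : a = (a ^ q) ^ ((q : ℝ)⁻¹) := (Real.pow_rpow_inv_natCast ha hq.ne').symm
  rw [h1, div_eq_mul_inv, Real.rpow_mul hb, Real.rpow_natCast]
  exact Real.rpow_le_rpow (by positivity) h (by positivity)

theorem num3 : (1 : ℝ) ≤ (2 / 3 : ℝ) ^ (100 / 81 : ℝ) + (√2 / 3) ^ (100 / 81 : ℝ) := by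
  have h1 : (606 / 1000 : ℝ) ≤ (2 / 3 : ℝ) ^ (((100 : ℕ) : ℝ) / ((81 : ℕ) : ℝ)) :=
    le_rpow_of_pow_le (by norm_num) (by norm_num) 100 (by norm_num) (by norm_num)
  have h2 : (395 / 1000 : ℝ) ≤ (√2 / 3 : ℝ) ^ (((100 : ℕ) : ℝ) / ((81 : ℕ) : ℝ)) := by
    refine le_rpow_of_pow_le (by norm_num) (by positivity) 100 (by norm_num) ?_
    have h3 : (√2 / 3 : ℝ) ^ 100 = (2 / 9) ^ 50 := by
      rw [show 100 = 2 * 50 from rfl, pow_mul, div_pow, Real.sq_sqrt (by norm_num)]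
      norm_num
    rw [h3]
    norm_num
  norm_num at h1 h2 ⊢
  linarith

theorem num4 : (1 : ℝ) ≤ (3 / 4 : ℝ) ^ (50 / 37 : ℝ) + (√3 / 4) ^ (50 / 37 : ℝ) := by
  have h1 : (6778 / 10000 : ℝ) ≤ (3 / 4 : ℝ) ^ (((50 : ℕ) : ℝ) / ((37 : ℕ) : ℝ)) :=
    le_rpow_of_pow_le (by norm_num) (by norm_num) 50 (by norm_num) (by norm_num)
  have h2 : (3226 / 10000 : ℝ) ≤ (√3 / 4 : ℝ) ^ (((50 : ℕ) : ℝ) / ((37 : ℕ) : ℝ)) := by
    refine le_rpow_of_pow_le (by norm_num) (by positivity) 50 (by norm_num) ?_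
    have h3 : (√3 / 4 : ℝ) ^ 50 = (3 / 16) ^ 25 := by
      rw [show 50 = 2 * 25 from rfl, pow_mul, div_pow, Real.sq_sqrt (by norm_num)]
      norm_num
    rw [h3]
    norm_num
  norm_num at h1 h2 ⊢
  linarith

end Pool.Agent.W5h16.PG
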